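import Mathlib

/-!
# The algebraic inequality
-/

open scoped RealInnerProductSpace

namespace Pool.Agent.Helper40.BR

variable {W : Type*} [NormedAddCommGroup W] [InnerProductSpace ℝ W]

/-- A spherical design identity. -/
lemma design_sum (H a12 a13 a14 a23 a24 a34 : W) :
    ‖H + (2:ℝ) • (a12 + a13 + a14 + a23 + a24 + a34)‖ ^ 2
    + ‖H + (2:ℝ) • (a12 - a13 + a14 - a23 + a24 - a34)‖ ^ 2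
    + ‖H + (2:ℝ) • (-a12 + a13 + a14 - a23 - a24 + a34)‖ ^ 2
    + ‖H + (2:ℝ) • (-a12 - a13 + a14 + a23 - a24 - a34)‖ ^ 2
    + ‖H + (2:ℝ) • (-a12 - a13 - a14 + a23 + a24 + a34)‖ ^ 2
    + ‖H + (2:ℝ) • (-a12 + a13 - a14 - a23 + a24 - a34)‖ ^ 2
    + ‖H + (2:ℝ) • (a12 - a13 - a14 - a23 - a24 + a34)‖ ^ 2
    + ‖H + (2:ℝ) • (a12 + a13 - a14 + a23 - a24 - a34)‖ ^ 2
    = 8 * ‖H‖ ^ 2 + 32 * (‖a12‖ ^ 2 + ‖a13‖ ^ 2 + ‖a14‖ ^ 2 + ‖a23‖ ^ 2 + ‖a24‖ ^ 2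
      + ‖a34‖ ^ 2) := by
  simp only [← real_inner_self_eq_norm_sq, inner_add_left, inner_add_right, inner_sub_left,
    inner_sub_right, inner_neg_left, inner_neg_right, real_inner_smul_left, real_inner_smul_right]
  ring

/-- Petrunin's average inequality in dimension four, through a finite design. -/
lemma petrunin {c : ℝ} (hc : 0 ≤ c) {a11 a22 a33 a44 a12 a13 a14 a23 a24 a34 : W}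
    (h1 : ‖a11‖ ≤ c) (h2 : ‖a22‖ ≤ c) (h3 : ‖a33‖ ≤ c) (h4 : ‖a44‖ ≤ c)
    (k1 : ‖(a11 + a22 + a33 + a44) + (2:ℝ) • (a12 + a13 + a14 + a23 + a24 + a34)‖ ≤ 4 * c)
    (k2 : ‖(a11 + a22 + a33 + a44) + (2:ℝ) • (a12 - a13 + a14 - a23 + a24 - a34)‖ ≤ 4 * c)
    (k3 : ‖(a11 + a22 + a33 + a44) + (2:ℝ) • (-a12 + a13 + a14 - a23 - a24 + a34)‖ ≤ 4 * c)
    (k4 : ‖(a11 + a22 + a33 + a44) + (2:ℝ) • (-a12 - a13 + a14 + a23 - a24 - a34)‖ ≤ 4 * c)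
    (k5 : ‖(a11 + a22 + a33 + a44) + (2:ℝ) • (-a12 - a13 - a14 + a23 + a24 + a34)‖ ≤ 4 * c)
    (k6 : ‖(a11 + a22 + a33 + a44) + (2:ℝ) • (-a12 + a13 - a14 - a23 + a24 - a34)‖ ≤ 4 * c)
    (k7 : ‖(a11 + a22 + a33 + a44) + (2:ℝ) • (a12 - a13 - a14 - a23 - a24 + a34)‖ ≤ 4 * c)
    (k8 : ‖(a11 + a22 + a33 + a44) + (2:ℝ) • (a12 + a13 - a14 + a23 - a24 - a34)‖ ≤ 4 * c) :
    (‖a11‖ ^ 2 + ‖a22‖ ^ 2 + ‖a33‖ ^ 2 + ‖a44‖ ^ 2) + (1 / 2) * ‖a11 + a22 + a33 + a44‖ ^ 2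
      + 2 * (‖a12‖ ^ 2 + ‖a13‖ ^ 2 + ‖a14‖ ^ 2 + ‖a23‖ ^ 2 + ‖a24‖ ^ 2 + ‖a34‖ ^ 2)
      ≤ 12 * c ^ 2 := by
  have hd := design_sum (a11 + a22 + a33 + a44) a12 a13 a14 a23 a24 a34
  have q : ∀ x : W, ∀ d : ℝ, ‖x‖ ≤ d → ‖x‖ ^ 2 ≤ d ^ 2 := fun x d h =>
    pow_le_pow_left₀ (norm_nonneg _) h 2
  have := q _ _ h1
  have := q _ _ h2
  have := q _ _ h3
  have := q _ _ h4
  have := q _ _ k1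
  have := q _ _ k2
  have := q _ _ k3
  have := q _ _ k4
  have := q _ _ k5
  have := q _ _ k6
  have := q _ _ k7
  have := q _ _ k8
  have e : (4 * c) ^ 2 = 16 * c ^ 2 := by ring
  rw [e] at *
  linarith

/-- The pointwise inequality. -/
lemma pointwise {c : ℝ} {a11 a22 a33 a44 a12 a13 a14 a23 a24 a34 q : W}
    (h1 : ‖a11‖ ≤ c) (h2 : ‖a22‖ ≤ c)
    (hX : (‖a11‖ ^ 2 + ‖a22‖ ^ 2 + ‖a33‖ ^ 2 + ‖a44‖ ^ 2)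
      + (1 / 2) * ‖a11 + a22 + a33 + a44‖ ^ 2
      + 2 * (‖a12‖ ^ 2 + ‖a13‖ ^ 2 + ‖a14‖ ^ 2 + ‖a23‖ ^ 2 + ‖a24‖ ^ 2 + ‖a34‖ ^ 2)
      ≤ 12 * c ^ 2) :
    -(15 / 2) * c ^ 2 - 2 * ‖q‖ ^ 2 ≤
      (⟪a11, a22⟫ - ‖a12‖ ^ 2) + (⟪a11, a33⟫ - ‖a13‖ ^ 2) + (⟪a11, a44⟫ - ‖a14‖ ^ 2)
      + (⟪a22, a33⟫ - ‖a23‖ ^ 2) + (⟪a22, a44⟫ - ‖a24‖ ^ 2)
      + (3 * (⟪a11, q⟫ + ⟪a22, q⟫) + 2 * (⟪a33, q⟫ + ⟪a44, q⟫)) := by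
  have hα : ‖(1 / 2 : ℝ) • (a11 + a22)‖ ≤ c := by
    rw [norm_smul]
    have := norm_add_le a11 a22
    have e : ‖(1 / 2 : ℝ)‖ = 1 / 2 := by norm_num
    rw [e]
    linarith
  have hα2 : ‖(1 / 2 : ℝ) • (a11 + a22)‖ ^ 2 ≤ c ^ 2 :=
    pow_le_pow_left₀ (norm_nonneg _) hα 2
  have e : ((⟪a11, a22⟫ - ‖a12‖ ^ 2) + (⟪a11, a33⟫ - ‖a13‖ ^ 2) + (⟪a11, a44⟫ - ‖a14‖ ^ 2)
      + (⟪a22, a33⟫ - ‖a23‖ ^ 2) + (⟪a22, a44⟫ - ‖a24‖ ^ 2)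
      + (3 * (⟪a11, q⟫ + ⟪a22, q⟫) + 2 * (⟪a33, q⟫ + ⟪a44, q⟫)))
      + (15 / 2) * c ^ 2 + 2 * ‖q‖ ^ 2
      = (1 / 2) * (12 * c ^ 2 - ((‖a11‖ ^ 2 + ‖a22‖ ^ 2 + ‖a33‖ ^ 2 + ‖a44‖ ^ 2)
      + (1 / 2) * ‖a11 + a22 + a33 + a44‖ ^ 2
      + 2 * (‖a12‖ ^ 2 + ‖a13‖ ^ 2 + ‖a14‖ ^ 2 + ‖a23‖ ^ 2 + ‖a24‖ ^ 2 + ‖a34‖ ^ 2)))
      + (3 / 2) * (c ^ 2 - ‖(1 / 2 : ℝ) • (a11 + a22)‖ ^ 2)
      + (1 / 4) * ‖a33 - a44‖ ^ 2 + ‖a34‖ ^ 2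
      + 2 * ‖(1 / 2 : ℝ) • (a33 + a44) + q + (3 / 4 : ℝ) • (a11 + a22)‖ ^ 2 := by
    simp only [← real_inner_self_eq_norm_sq, inner_add_left, inner_add_right, inner_sub_left,
      inner_sub_right, real_inner_smul_left, real_inner_smul_right]
    rw [real_inner_comm a11 a22, real_inner_comm a11 a33, real_inner_comm a11 a44,
      real_inner_comm a22 a33, real_inner_comm a22 a44, real_inner_comm a33 a44,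
      real_inner_comm a11 q, real_inner_comm a22 q, real_inner_comm a33 q, real_inner_comm a44 q]
    ring
  have p1 : 0 ≤ ‖a33 - a44‖ ^ 2 := by positivity
  have p2 : 0 ≤ ‖a34‖ ^ 2 := by positivity
  have p3 : 0 ≤ ‖(1 / 2 : ℝ) • (a33 + a44) + q + (3 / 4 : ℝ) • (a11 + a22)‖ ^ 2 := by positivity
  linarith

end Pool.Agent.Helper40.BR
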