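import Pool.Agent.Helper20.PC.Defs

/-!
# Maximal normal curvature and bi-Ricci curvature of a conformal metric
-/

open Filter Metric Module Set Function
open scoped Topology ContDiff RealInnerProductSpace Manifold ENNReal

namespace Pool.Agent.Helper40.BR
open Pool.Agent.Helper20.PC

/-- Euclidean space of dimension `n`. -/
abbrev EE (n : ℕ) : Type := EuclideanSpace ℝ (Fin n)

section curv
variable {E : Type*} [NormedAddCommGroup E] [NormedSpace ℝ E]

/-- The Ricci tensor `Ric(u,v) = trace (w ↦ R(w,u)v)` at `z` of a metric `G` on (an open subset of)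
the finite-dimensional space `E`; the trace is computed in a basis of `E`. -/
noncomputable def ricci [FiniteDimensional ℝ E] (G : E → E →L[ℝ] E →L[ℝ] ℝ) (z u v : E) : ℝ :=
  ∑ i, (finBasis ℝ E).coord i (Riem G z (finBasis ℝ E i) u v)

/-- The bi-Ricci curvature `Ric(u,u) + Ric(v,v) - sec(u,v)` at `z`. -/
noncomputable def biRic [FiniteDimensional ℝ E] (G : E → E →L[ℝ] E →L[ℝ] ℝ) (z u v : E) : ℝ :=
  ricci G z u u + ricci G z v v - secCurv G z u v

/-- The bi-Ricci curvature of `G` is positive for all orthonormal pairs at `z`. -/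
def PosAt [FiniteDimensional ℝ E] (G : E → E →L[ℝ] E →L[ℝ] ℝ) (z : E) : Prop :=
  ∀ u v : E, G z u u = 1 → G z v v = 1 → G z u v = 0 → 0 < biRic G z u v

variable {W : Type*} [NormedAddCommGroup W] [InnerProductSpace ℝ W]

/-- The second derivative of `F`. -/
noncomputable def Sd (F : E → W) (z : E) : E →L[ℝ] E →L[ℝ] W := fderiv ℝ (fderiv ℝ F) z

/-- The metric `e^{2φ} F^* g`, where `g` is the inner product of `W`. -/
noncomputable def cm (F : E → W) (φ : E → ℝ) (z : E) : E →L[ℝ] E →L[ℝ] ℝ :=
  Real.exp (2 * φ z) •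
    ((innerSL ℝ : W →L[ℝ] W →L[ℝ] ℝ).bilinearComp (fderiv ℝ F z) (fderiv ℝ F z))

/-- The orthogonal projection to the orthogonal complement of the image of `T`. -/
noncomputable def np [FiniteDimensional ℝ E] [FiniteDimensional ℝ W] (T : E →L[ℝ] W) : W →L[ℝ] W :=
  (LinearMap.range T.toLinearMap)ᗮ.starProjection

/-- The component of `S(u,v)` orthogonal to the image of `T`. -/
noncomputable def nform [FiniteDimensional ℝ E] [FiniteDimensional ℝ W] (T : E →L[ℝ] W)
    (S : E →L[ℝ] E →L[ℝ] W) (u v : E) : W := np T (S u v)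

end curv

section imm
variable {N : ℕ} {X : Type*} [TopologicalSpace X] [ChartedSpace (EE 4) X]

/-- The differential of `f` at `p`; the tangent space at `p` is `ℝ⁴` through the preferred chart
at `p`, as in Mathlib. -/
noncomputable def dif (f : X → EE N) (p : X) : EE 4 →L[ℝ] EE N :=
  mfderiv (𝓡 4) 𝓘(ℝ, EE N) f p

/-- The coordinates of `p` in the preferred chart at `p`. -/
noncomputable def pt (p : X) : EE 4 := extChartAt (𝓡 4) p p

/-- The map `f` in the preferred chart at `p`. -/
noncomputable def loc {Y : Type*} (f : X → Y) (p : X) : EE 4 → Y := f ∘ (extChartAt (𝓡 4) p).symm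

/-- The second fundamental form `A(u,v)` of `f` at `p`: the component of the second derivative of
`f` (in the preferred chart at `p`) which is orthogonal to the image of the differential. -/
noncomputable def secondFund (f : X → EE N) (p : X) (u v : EE 4) : EE N :=
  nform (dif f p) (Sd (loc f p) (pt p)) u v

/-- The maximal normal curvature of `f`: the supremum of `|A(u,u)|` over all tangent vectors `u`
of length one for the induced metric. -/
noncomputable def maxNormalCurvature (f : X → EE N) : ℝ≥0∞ :=
  ⨆ (p : X) (u : EE 4) (_ : ‖dif f p u‖ = 1), ‖secondFund f p u u‖ₑ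

/-- The coordinate expression, in the preferred chart at `p`, of the metric `e^{2ψ} f^* g`,
where `g` is the standard metric of `ℝ^N`. -/
noncomputable def confMetric (f : X → EE N) (ψ : X → ℝ) (p : X) : EE 4 → EE 4 →L[ℝ] EE 4 →L[ℝ] ℝ :=
  cm (loc f p) (loc ψ p)

/-- The metric `e^{2ψ} f^* g` has positive bi-Ricci curvature. -/
def PosBiRic (f : X → EE N) (ψ : X → ℝ) : Prop := ∀ p : X, PosAt (confMetric f ψ p) (pt p)

end imm

end Pool.Agent.Helper40.BR
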