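import Pool.Agent.Helper20.PC.Curv
import Pool.Agent.Helper40.BR.Defs

/-!
# Curvature of a conformally changed induced metric
-/

open Filter Metric Module Set Function
open scoped Topology ContDiff RealInnerProductSpace

namespace Pool.Agent.Helper40.BR
open Pool.Agent.Helper20.PC

variable {E : Type*} [NormedAddCommGroup E] [NormedSpace ℝ E]
variable {W : Type*} [NormedAddCommGroup W] [InnerProductSpace ℝ W]

/-- the third derivative. -/
noncomputable def Td (F : E → W) (z : E) : E →L[ℝ] E →L[ℝ] E →L[ℝ] W := fderiv ℝ (Sd F) z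

section
variable {F : E → W} {φ : E → ℝ} {z : E}

lemma cm_apply (u v : E) :
    cm F φ z u v = Real.exp (2 * φ z) * ⟪fderiv ℝ F z u, fderiv ℝ F z v⟫ := by
  simp [cm]

lemma hasFDerivAt_fderiv (hF : ContDiffAt ℝ 3 F z) (u : E) :
    HasFDerivAt (fun z' => fderiv ℝ F z' u) ((Sd F z).flip u) z := by
  have h1 : DifferentiableAt ℝ (fderiv ℝ F) z :=
    (hF.fderiv_right (m := 2) (by norm_num)).differentiableAt (by norm_num)
  have h2 := h1.hasFDerivAt.clm_apply (hasFDerivAt_const u z)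
  refine h2.congr_fderiv ?_
  ext s
  simp [Sd]

lemma hasFDerivAt_Sd (hF : ContDiffAt ℝ 3 F z) (t u : E) :
    HasFDerivAt (fun z' => Sd F z' t u) (((Td F z).flip t).flip u) z := by
  have h0 : ContDiffAt ℝ 1 (Sd F) z := (hF.fderiv_right (m := 2) (by norm_num)).fderiv_right
    (m := 1) (by norm_num)
  have h1 : DifferentiableAt ℝ (Sd F) z := h0.differentiableAt (by norm_num)
  have h2 := (h1.hasFDerivAt.clm_apply (hasFDerivAt_const t z)).clm_apply (hasFDerivAt_const u z)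
  refine h2.congr_fderiv ?_
  ext s
  simp [Td]

lemma Sd_symm (hF : ContDiffAt ℝ 3 F z) (s t : E) : Sd F z s t = Sd F z t s :=
  (hF.isSymmSndFDerivAt (by simp; norm_num)) s t

lemma Td_symm (hF : ContDiffAt ℝ 3 F z) (s t u : E) : Td F z s t u = Td F z s u t := by
  have h1 : (fun z' => Sd F z' t u) =ᶠ[𝓝 z] (fun z' => Sd F z' u t) := by
    filter_upwards [hF.eventually (by norm_num)] with z' hz'
    exact Sd_symm hz' t u
  have h2 := h1.fderiv_eq (𝕜 := ℝ)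
  rw [(hasFDerivAt_Sd hF t u).fderiv, (hasFDerivAt_Sd hF u t).fderiv] at h2
  have := DFunLike.congr_fun h2 s
  simpa using this

lemma Td_swap (hF : ContDiffAt ℝ 3 F z) (s t u : E) : Td F z s t u = Td F z t s u := by
  have h0 : ContDiffAt ℝ 2 (fderiv ℝ F) z := hF.fderiv_right (m := 2) (by norm_num)
  have := (h0.isSymmSndFDerivAt (by simp)) s t
  exact DFunLike.congr_fun this u

/-- first derivatives of the metric. -/
lemma dG_cm (hF : ContDiffAt ℝ 3 F z) (hφ : ContDiffAt ℝ 2 φ z) (t u v : E) :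
    dG (cm F φ) z t u v = Real.exp (2 * φ z) * (2 * fderiv ℝ φ z t * ⟪fderiv ℝ F z u, fderiv ℝ F z v⟫
      + ⟪Sd F z t u, fderiv ℝ F z v⟫ + ⟪fderiv ℝ F z u, Sd F z t v⟫) := by
  have e : (fun z' => cm F φ z' u v) = fun z' =>
    Real.exp (2 * φ z') * ⟪fderiv ℝ F z' u, fderiv ℝ F z' v⟫ := by
    ext z'; exact cm_apply u v
  have h1 : HasFDerivAt φ (fderiv ℝ φ z) z := (hφ.differentiableAt (by norm_num)).hasFDerivAt
  have h2 := ((h1.const_mul 2).exp).mul
    ((hasFDerivAt_fderiv hF u).inner ℝ (hasFDerivAt_fderiv hF v))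
  have h3 : HasFDerivAt (fun z' =>
    Real.exp (2 * φ z') * ⟪fderiv ℝ F z' u, fderiv ℝ F z' v⟫) _ z := h2
  rw [dG, e, h3.fderiv]
  simp [fderivInnerCLM_apply]
  ring

/-- second derivatives of the metric. -/
lemma ddG_cm (hF : ContDiffAt ℝ 3 F z) (hφ : ContDiffAt ℝ 2 φ z) (s t u v : E) :
    ddG (cm F φ) z s t u v = Real.exp (2 * φ z) * (
      2 * fderiv ℝ φ z s * (2 * fderiv ℝ φ z t * ⟪fderiv ℝ F z u, fderiv ℝ F z v⟫
        + ⟪Sd F z t u, fderiv ℝ F z v⟫ + ⟪fderiv ℝ F z u, Sd F z t v⟫)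
      + 2 * fderiv ℝ (fderiv ℝ φ) z s t * ⟪fderiv ℝ F z u, fderiv ℝ F z v⟫
      + 2 * fderiv ℝ φ z t * (⟪Sd F z s u, fderiv ℝ F z v⟫ + ⟪fderiv ℝ F z u, Sd F z s v⟫)
      + (⟪Td F z s t u, fderiv ℝ F z v⟫ + ⟪Sd F z t u, Sd F z s v⟫)
      + (⟪Sd F z s u, Sd F z t v⟫ + ⟪fderiv ℝ F z u, Td F z s t v⟫)) := by
  have e : (fun z' => dG (cm F φ) z' t u v) =ᶠ[𝓝 z] fun z' =>
    Real.exp (2 * φ z') * (2 * fderiv ℝ φ z' t * ⟪fderiv ℝ F z' u, fderiv ℝ F z' v⟫
      + ⟪Sd F z' t u, fderiv ℝ F z' v⟫ + ⟪fderiv ℝ F z' u, Sd F z' t v⟫) := by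
    filter_upwards [hF.eventually (by norm_num), hφ.eventually (by norm_num)] with z' h1 h2
    exact dG_cm h1 h2 t u v
  have h1 : HasFDerivAt φ (fderiv ℝ φ z) z := (hφ.differentiableAt (by norm_num)).hasFDerivAt
  have h1' : DifferentiableAt ℝ (fderiv ℝ φ) z :=
    (hφ.fderiv_right (m := 1) (by norm_num)).differentiableAt (by norm_num)
  have h2 : HasFDerivAt (fun z' => fderiv ℝ φ z' t) ((fderiv ℝ (fderiv ℝ φ) z).flip t) z := by
    have := h1'.hasFDerivAt.clm_apply (hasFDerivAt_const t z)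
    refine this.congr_fderiv ?_
    ext s
    simp
  have h3 := ((h1.const_mul 2).exp).mul
    ((((h2.const_mul 2).mul ((hasFDerivAt_fderiv hF u).inner ℝ (hasFDerivAt_fderiv hF v))).add
      ((hasFDerivAt_Sd hF t u).inner ℝ (hasFDerivAt_fderiv hF v))).add
      ((hasFDerivAt_fderiv hF u).inner ℝ (hasFDerivAt_Sd hF t v)))
  have h4 : HasFDerivAt (fun z' =>
    Real.exp (2 * φ z') * (2 * fderiv ℝ φ z' t * ⟪fderiv ℝ F z' u, fderiv ℝ F z' v⟫
      + ⟪Sd F z' t u, fderiv ℝ F z' v⟫ + ⟪fderiv ℝ F z' u, Sd F z' t v⟫)) _ z := h3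
  rw [ddG, e.fderiv_eq, h4.fderiv]
  simp [fderivInnerCLM_apply]
  ring

set_option maxSynthPendingDepth 3 in
lemma contDiffAt_bilin (B : W →L[ℝ] W →L[ℝ] ℝ) {T : E → E →L[ℝ] W} (h2 : ContDiffAt ℝ 2 T z) :
    ContDiffAt ℝ 2 (fun z' => B.bilinearComp (T z') (T z')) z := by
  have e : (fun z' => B.bilinearComp (T z') (T z')) = fun z' =>
    ((B.comp (T z')).flip.comp (T z')).flip := by
    ext z' u v
    simp
  rw [e]
  have h4 : ContDiffAt ℝ 2 (fun z' => (B.comp (T z'))) z := contDiffAt_const.clm_comp h2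
  have h5 : ContDiffAt ℝ 2 (fun z' => (B.comp (T z')).flip) z :=
    (ContinuousLinearMap.flipₗᵢ ℝ E W ℝ).contDiff.contDiffAt.comp z h4
  have h6 := h5.clm_comp h2
  exact (ContinuousLinearMap.flipₗᵢ ℝ E E ℝ).contDiff.contDiffAt.comp z h6

set_option maxSynthPendingDepth 3 in
lemma contDiffAt_cm (hF : ContDiffAt ℝ 3 F z) (hφ : ContDiffAt ℝ 2 φ z) :
    ContDiffAt ℝ 2 (cm F φ) z := by
  have h1 : ContDiffAt ℝ 2 (fun z' => Real.exp (2 * φ z')) z := (contDiffAt_const.mul hφ).exp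
  have h2 : ContDiffAt ℝ 2 (fderiv ℝ F) z := hF.fderiv_right (m := 2) (by norm_num)
  have h3 := contDiffAt_bilin (innerSL ℝ : W →L[ℝ] W →L[ℝ] ℝ) h2
  have h4 : ContDiffAt ℝ 2 (fun z' => (Real.exp (2 * φ z'), (innerSL ℝ : W →L[ℝ] W →L[ℝ] ℝ).bilinearComp
      (fderiv ℝ F z') (fderiv ℝ F z'))) z := h1.prodMk h3
  exact (contDiff_smul (𝕜 := ℝ) (F := E →L[ℝ] E →L[ℝ] ℝ)).contDiffAt.comp z h4

lemma metAt_cm [FiniteDimensional ℝ E] (hF : ContDiffAt ℝ 3 F z) (hφ : ContDiffAt ℝ 2 φ z)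
    (hinj : Injective (fderiv ℝ F z)) : MetAt (cm F φ) z := by
  refine ⟨contDiffAt_cm hF hφ, Eventually.of_forall fun z' u v => ?_, ?_⟩
  · rw [cm_apply, cm_apply, real_inner_comm]
  · have hc : ContinuousAt (fderiv ℝ F) z :=
      (hF.fderiv_right (m := 2) (by norm_num)).continuousAt
    have h1 : ∀ᶠ z' in 𝓝 z, Injective (fderiv ℝ F z') :=
      hc.eventually_mem (ContinuousLinearMap.isOpen_injective.mem_nhds hinj)
    filter_upwards [h1] with z' hz' u hu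
    rw [cm_apply, real_inner_self_eq_norm_sq]
    have : fderiv ℝ F z' u ≠ 0 := by
      intro h
      exact hu (hz' (by rw [h, map_zero]))
    positivity

end

end Pool.Agent.Helper40.BR
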