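import Pool.Agent.Helper40.BR.Loc

/-!
# Adapted frames and the final numerical inequality
-/

open Filter Metric Module Set Function
open scoped Topology ContDiff RealInnerProductSpace

namespace Pool.Agent.Helper40.BR

variable {N : ℕ}

lemma exists_frame (T : EE 4 →L[ℝ] EE N) (hinj : Injective T) (x : EE N) {u v : EE 4}
    (hu : ‖T u‖ = 1) (hv : ‖T v‖ = 1) (huv : ⟪T u, T v⟫ = 0) :
    ∃ e : Fin 4 → EE 4, e 0 = u ∧ e 1 = v ∧
      (∀ i j, ⟪T (e i), T (e j)⟫ = if i = j then (1:ℝ) else 0) ∧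
      ∑ i, ⟪x, T (e i)⟫ ^ 2 = ‖tp T x‖ ^ 2 := by
  set P : Submodule ℝ (EE N) := LinearMap.range T.toLinearMap with hP
  have hfr : finrank ℝ P = Fintype.card (Fin 4) := by
    rw [hP, LinearMap.finrank_range_of_inj hinj]
    simp
  set w : Fin 4 → P := ![⟨T u, ⟨u, rfl⟩⟩, ⟨T v, ⟨v, rfl⟩⟩, 0, 0] with hw
  have hw0 : w 0 = ⟨T u, ⟨u, rfl⟩⟩ := rfl
  have hw1 : w 1 = ⟨T v, ⟨v, rfl⟩⟩ := rfl
  have hon : Orthonormal ℝ (({0, 1} : Set (Fin 4)).domRestrict w) := by
    constructor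
    · rintro ⟨i, hi⟩
      rcases hi with rfl | hi
      · exact hu
      · rw [mem_singleton_iff] at hi
        subst hi
        exact hv
    · rintro ⟨i, hi⟩ ⟨j, hj⟩ hij
      have hij' : i ≠ j := fun h => hij (Subtype.ext h)
      rcases hi with rfl | hi
      · rcases hj with rfl | hj
        · exact absurd rfl hij'
        · rw [mem_singleton_iff] at hj
          subst hj
          exact huv
      · rw [mem_singleton_iff] at hi
        subst hi
        rcases hj with rfl | hj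
        · change ⟪T v, T u⟫ = 0
          rw [real_inner_comm]
          exact huv
        · rw [mem_singleton_iff] at hj
          exact absurd hj.symm hij'
  obtain ⟨b, hb⟩ := hon.exists_orthonormalBasis_extension_of_card_eq hfr
  have hex : ∀ i, ∃ e : EE 4, T e = (b i : EE N) := by
    intro i
    obtain ⟨e, he⟩ := (b i).2
    exact ⟨e, he⟩
  choose e he using hex
  refine ⟨e, ?_, ?_, ?_, ?_⟩
  · apply hinj
    rw [he, hb 0 (by simp), hw0]
  · apply hinj
    rw [he, hb 1 (by simp), hw1]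
  · intro i j
    rw [he, he]
    have := (orthonormal_iff_ite.1 b.orthonormal) i j
    rw [← this]
    rfl
  · have hmem : tp T x ∈ P := Submodule.starProjection_apply_mem _ _
    have h1 := b.sum_sq_inner_right (⟨tp T x, hmem⟩ : P)
    have h2 : ‖(⟨tp T x, hmem⟩ : P)‖ = ‖tp T x‖ := rfl
    rw [h2] at h1
    rw [← h1]
    apply Finset.sum_congr rfl
    intro i _
    have h3 : ⟪b i, (⟨tp T x, hmem⟩ : P)⟫ = ⟪(b i : EE N), tp T x⟫ := rfl
    rw [h3, ← he, inner_tp, real_inner_comm]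

/-- the final numerical inequality. -/
lemma numeric {a b c t : ℝ} (hb : 0 ≤ b) (hb1 : b ≤ 1)
    (hR : a ^ 2 + b ^ 2 ≤ 1) (hR0 : 0 < a ^ 2 + b ^ 2) (hc2 : c ^ 2 < 5 / 3)
    (ht : 3 / 2 ≤ t) (h : a = 0 ∨ a ^ 2 ≤ (1 - b) * (1 + b - t)) :
    0 < -(15 / 2) * c ^ 2 * (a ^ 2 + b ^ 2) ^ 2 + (25 / 2) * (a ^ 2 + b ^ 2) - (65 / 4) * a ^ 2 := by
  have key : (65 / 4) * a ^ 2 ≤ (25 / 2) * (a ^ 2 + b ^ 2) * (1 - (a ^ 2 + b ^ 2)) := by
    rcases h with h | h
    · rw [h] at hR hR0 ⊢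
      have : 0 ≤ 1 - b ^ 2 := by nlinarith
      have h2 : 0 ≤ b ^ 2 := by positivity
      nlinarith [mul_nonneg h2 this]
    · have h1 : (1 - b) * t ≤ 1 - (a ^ 2 + b ^ 2) := by nlinarith
      have h2 : (1 - b) * (3 / 2) ≤ (1 - b) * t := mul_le_mul_of_nonneg_left ht (by linarith)
      have h3 : b ^ 2 * ((1 - b) * (3 / 2)) ≤ (a ^ 2 + b ^ 2) * (1 - (a ^ 2 + b ^ 2)) := by
        apply mul_le_mul (by nlinarith) (by linarith) _ hR0.le
        have : 0 ≤ 1 - b := by linarith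
        positivity
      have h4 : (1 - b) * (1 + b - t) ≤ (1 - b) * (1 + b - 3 / 2) :=
        mul_le_mul_of_nonneg_left (by linarith) (by linarith)
      have h5 : 0 ≤ (1 - b) * ((75 / 4) * b ^ 2 - (65 / 4) * (b - 1 / 2)) := by
        apply mul_nonneg (by linarith)
        nlinarith [sq_nonneg (b - 1 / 2)]
      nlinarith
  have h6 : c ^ 2 * (a ^ 2 + b ^ 2) ^ 2 < 5 / 3 * (a ^ 2 + b ^ 2) ^ 2 :=
    mul_lt_mul_of_pos_right hc2 (by positivity)
  nlinarith

end Pool.Agent.Helper40.BR
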