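import Pool.Agent.Helper40.BR.Man

/-!
# The geodesic lemma, by a compactness argument
-/

open Filter Metric Module Set Function
open scoped Topology ContDiff RealInnerProductSpace Manifold ENNReal

namespace Pool.Agent.Helper40.BR

variable {N : ℕ} {X : Type*} [TopologicalSpace X] [ChartedSpace (EE 4) X]
  [IsManifold (𝓡 4) ∞ X] {f : X → EE N}

/-- the auxiliary function. -/
noncomputable def Qf (f : X → EE N) (κ : ℝ) (p : X) : ℝ :=
  ‖np (dif f p) (f p)‖ - (κ / 2) * ‖f p‖ ^ 2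

lemma lsc_Qf (hf : ContMDiff (𝓡 4) 𝓘(ℝ, EE N) ∞ f) (himm : ∀ p, Injective (dif f p)) (κ : ℝ) :
    LowerSemicontinuous (Qf f κ) := by
  intro p r hr
  set y := extChartAt (𝓡 4) p p with hy
  have hps : p ∈ (extChartAt (𝓡 4) p).source := mem_extChartAt_source p
  have hyt : y ∈ (extChartAt (𝓡 4) p).target := mem_extChartAt_target p
  have hF := contDiffAt_loc hf p hyt
  have hT : ContinuousAt (fderiv ℝ (loc f p)) y :=
    ((hF.of_le three_le).fderiv_right (m := 2) (by norm_num)).continuousAt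
  have hφ : Tendsto (extChartAt (𝓡 4) p) (𝓝 p) (𝓝 y) := continuousAt_extChartAt p
  have hfc : Continuous f := hf.continuous
  have h1 : Tendsto (fun q => fderiv ℝ (loc f p) (extChartAt (𝓡 4) p q)) (𝓝 p)
    (𝓝 (fderiv ℝ (loc f p) y)) := hT.tendsto.comp hφ
  have h2 : Tendsto f (𝓝 p) (𝓝 (f p)) := hfc.continuousAt
  have h3 : Tendsto (fun q => (κ / 2) * ‖f q‖ ^ 2) (𝓝 p) (𝓝 ((κ / 2) * ‖f p‖ ^ 2)) :=
    ((h2.norm.pow 2).const_mul _)
  set ε := (Qf f κ p - r) / 2 with hε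
  have hεpos : 0 < ε := by rw [hε]; linarith
  have h4 := lsc_np h1 h2 (injective_fderiv hf himm p hps) hεpos
  have h5 : ∀ᶠ q in 𝓝 p, (κ / 2) * ‖f q‖ ^ 2 < (κ / 2) * ‖f p‖ ^ 2 + ε :=
    h3.eventually (gt_mem_nhds (by linarith))
  filter_upwards [h4, h5, (isOpen_extChartAt_source p).mem_nhds hps] with q a b c
  have d1 := np_dif hf p c (f q)
  have d2 := np_dif hf p hps (f p)
  rw [← d1, ← d2] at a
  simp only [Qf] at *
  linarith

variable [CompactSpace X]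

/-- the geodesic lemma. -/
lemma geo (hf : ContMDiff (𝓡 4) 𝓘(ℝ, EE N) ∞ f) (himm : ∀ p, Injective (dif f p))
    (hball : ∀ p, ‖f p‖ ≤ 1) {c κ : ℝ} (hc : 0 ≤ c) (hκ : c < κ)
    (hA : ∀ p v, ‖secondFund f p v v‖ ≤ c * ‖dif f p v‖ ^ 2) (p : X)
    (hne : tp (dif f p) (f p) ≠ 0) :
    ‖tp (dif f p) (f p)‖ ^ 2
      ≤ (1 - ‖np (dif f p) (f p)‖) * (1 + ‖np (dif f p) (f p)‖ - 2 / κ) := by
  have hκ0 : 0 < κ := lt_of_le_of_lt hc hκ
  set S : Set X := {q | ‖f p‖ ^ 2 ≤ ‖f q‖ ^ 2} with hS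
  have hSc : IsCompact S := by
    apply IsClosed.isCompact
    exact isClosed_le continuous_const (hf.continuous.norm.pow 2)
  have hpS : p ∈ S := le_refl (‖f p‖ ^ 2)
  obtain ⟨p₁, hp₁, hmin⟩ := LowerSemicontinuousOn.exists_isMinOn ⟨p, hpS⟩ hSc
    ((lsc_Qf hf himm κ).lowerSemicontinuousOn S)
  have hps : p₁ ∈ (extChartAt (𝓡 4) p₁).source := mem_extChartAt_source p₁
  have hyt : extChartAt (𝓡 4) p₁ p₁ ∈ (extChartAt (𝓡 4) p₁).target := mem_extChartAt_target p₁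
  have hF := contDiffAt_loc hf p₁ hyt
  -- the tangential part vanishes at the minimum
  have h0 : tp (dif f p₁) (f p₁) = 0 := by
    by_contra hne1
    have hA1 : ∀ v, ‖np (fderiv ℝ (loc f p₁) (extChartAt (𝓡 4) p₁ p₁))
        (Sd (loc f p₁) (extChartAt (𝓡 4) p₁ p₁) v v)‖
        ≤ c * ‖fderiv ℝ (loc f p₁) (extChartAt (𝓡 4) p₁ p₁) v‖ ^ 2 := by
      intro v
      have := hA p₁ v
      rw [← dif_self hf p₁]
      exact this
    have hne2 : tp (fderiv ℝ (loc f p₁) (extChartAt (𝓡 4) p₁ p₁))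
        (loc f p₁ (extChartAt (𝓡 4) p₁ p₁)) ≠ 0 := by
      rw [← dif_self hf p₁, loc_apply p₁ hps]
      exact hne1
    have h1 := local_decrease (hF.of_le three_le) hc hκ hA1 hne2
    have h2 := h1.and_eventually ((isOpen_extChartAt_target p₁).mem_nhds hyt)
    obtain ⟨y, ⟨hy1, hy2⟩, hy3⟩ := h2.exists
    set q := (extChartAt (𝓡 4) p₁).symm y with hq
    have hqs : q ∈ (extChartAt (𝓡 4) p₁).source := (extChartAt (𝓡 4) p₁).map_target hy3
    have hqy : extChartAt (𝓡 4) p₁ q = y := (extChartAt (𝓡 4) p₁).right_inv hy3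
    have e1 : loc f p₁ y = f q := rfl
    have e2 : loc f p₁ (extChartAt (𝓡 4) p₁ p₁) = f p₁ := loc_apply p₁ hps
    have e3 := np_dif hf p₁ hqs (f q)
    have e4 := np_dif hf p₁ hps (f p₁)
    rw [hqy] at e3
    rw [e1, e2, ← e3, ← e4] at hy1
    rw [e1, e2] at hy2
    have hqS : q ∈ S := le_trans (show ‖f p‖ ^ 2 ≤ ‖f p₁‖ ^ 2 from hp₁) hy2
    have h3 : Qf f κ p₁ ≤ Qf f κ q := hmin hqS
    simp only [Qf] at h3
    linarith
  have hm : Qf f κ p₁ ≤ Qf f κ p := hmin hpS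
  have s0 := norm_sq_split (dif f p) (f p)
  have s1 := norm_sq_split (dif f p₁) (f p₁)
  rw [h0, norm_zero] at s1
  have hr1 : ‖np (dif f p₁) (f p₁)‖ = ‖f p₁‖ := by
    have h1 : ‖np (dif f p₁) (f p₁)‖ ^ 2 = ‖f p₁‖ ^ 2 := by rw [s1]; ring
    exact (pow_left_inj₀ (norm_nonneg _) (norm_nonneg _) (by norm_num)).1 h1
  simp only [Qf] at hm
  rw [hr1] at hm
  have ha : 0 < ‖tp (dif f p) (f p)‖ := norm_pos_iff.2 hne
  have hle : ‖f p‖ ^ 2 ≤ ‖f p₁‖ ^ 2 := hp₁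
  set a := ‖tp (dif f p) (f p)‖
  set b := ‖np (dif f p) (f p)‖ with hb
  have hb0 : 0 ≤ b := norm_nonneg _
  set r := ‖f p₁‖ with hr
  have hr0 : 0 ≤ r := norm_nonneg _
  have hr1' : r ≤ 1 := hball p₁
  rw [s0] at hm hle
  have hbr : b < r := by
    apply lt_of_pow_lt_pow_left₀ 2 hr0
    nlinarith
  -- a² ≤ (r-b)(r+b-2/κ)
  have k1 : a ^ 2 ≤ (r - b) * (r + b - 2 / κ) := by
    have e : (r - b) * (r + b - 2 / κ) = (r ^ 2 - b ^ 2) - (2 / κ) * (r - b) := by ring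
    rw [e]
    have h1 : (κ / 2) * a ^ 2 ≤ (κ / 2) * (r ^ 2 - b ^ 2) - (r - b) := by nlinarith
    have h2 := mul_le_mul_of_nonneg_left h1 (show 0 ≤ 2 / κ by positivity)
    have e1 : 2 / κ * ((κ / 2) * a ^ 2) = a ^ 2 := by field_simp
    have e2 : 2 / κ * ((κ / 2) * (r ^ 2 - b ^ 2) - (r - b))
      = (r ^ 2 - b ^ 2) - (2 / κ) * (r - b) := by field_simp
    rw [e1, e2] at h2
    exact h2
  have k2 : 0 < r + b - 2 / κ := by
    by_contra hcon
    push Not at hcon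
    have : (r - b) * (r + b - 2 / κ) ≤ 0 := mul_nonpos_of_nonneg_of_nonpos (by linarith) hcon
    nlinarith [pow_pos ha 2]
  have k3 : (r - b) * (r + b - 2 / κ) ≤ (1 - b) * (1 + b - 2 / κ) :=
    mul_le_mul (by linarith) (by linarith) k2.le (by linarith)
  linarith

/-- `f` has no zeros. -/
lemma ne_zero (hf : ContMDiff (𝓡 4) 𝓘(ℝ, EE N) ∞ f) (himm : ∀ p, Injective (dif f p))
    (hball : ∀ p, ‖f p‖ ≤ 1) {c κ : ℝ} (hc : 0 ≤ c) (hκ : c < κ) (hκ2 : κ < 2)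
    (hA : ∀ p v, ‖secondFund f p v v‖ ≤ c * ‖dif f p v‖ ^ 2) (p : X) : f p ≠ 0 := by
  intro h0
  have hκ0 : 0 < κ := lt_of_le_of_lt hc hκ
  set z := extChartAt (𝓡 4) p p with hz
  have hps : p ∈ (extChartAt (𝓡 4) p).source := mem_extChartAt_source p
  have hyt : z ∈ (extChartAt (𝓡 4) p).target := mem_extChartAt_target p
  have hF := contDiffAt_loc hf p hyt
  have hFz : loc f p z = 0 := by rw [hz, loc_apply p hps, h0]
  have hinj : Injective (fderiv ℝ (loc f p) z) := injective_fderiv hf himm p hps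
  obtain ⟨v, hv⟩ : ∃ v : EE 4, v ≠ 0 := ⟨EuclideanSpace.single 0 1, by
    intro h
    have := congrArg (fun x : EE 4 => x 0) h
    simp at this⟩
  have hTv : fderiv ℝ (loc f p) z v ≠ 0 := fun h => hv (hinj (by rw [h, map_zero]))
  have ev1 := frequently_tp_ne (hF.of_le three_le) hFz hTv
  have hδ : (0:ℝ) < 2 / κ - 1 := by
    rw [sub_pos, lt_div_iff₀ hκ0]
    linarith
  have ev2 : ∀ᶠ y in 𝓝 z, ‖loc f p y‖ < min 1 (2 / κ - 1) := by
    have h1 : Tendsto (fun y => ‖loc f p y‖) (𝓝 z) (𝓝 ‖loc f p z‖) :=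
      hF.continuousAt.tendsto.norm
    rw [hFz, norm_zero] at h1
    exact h1.eventually (gt_mem_nhds (by positivity))
  have ev3 := (isOpen_extChartAt_target p).mem_nhds hyt
  obtain ⟨y, h1, h2, hy3⟩ := (ev1.and_eventually (ev2.and ev3)).exists
  set q := (extChartAt (𝓡 4) p).symm y with hq
  have hqs : q ∈ (extChartAt (𝓡 4) p).source := (extChartAt (𝓡 4) p).map_target hy3
  have hqy : extChartAt (𝓡 4) p q = y := (extChartAt (𝓡 4) p).right_inv hy3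
  have e1 : loc f p y = f q := rfl
  have hne : tp (dif f q) (f q) ≠ 0 := by
    intro h
    apply h1
    have e2 := np_dif hf p hqs (f q)
    rw [hqy, np_eq, np_eq, h, sub_zero] at e2
    rw [e1]
    have : tp (fderiv ℝ (loc f p) y) (f q) = f q - (f q - tp (fderiv ℝ (loc f p) y) (f q)) := by
      abel
    rw [this, ← e2, sub_self]
  have h3 := geo hf himm hball hc hκ hA q hne
  have h4 : ‖np (dif f q) (f q)‖ ≤ ‖f q‖ := norm_np_le _ _
  rw [e1] at h2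
  have h5 : ‖f q‖ < 1 := lt_of_lt_of_le h2 (min_le_left _ _)
  have h6 : ‖f q‖ < 2 / κ - 1 := lt_of_lt_of_le h2 (min_le_right _ _)
  have h7 : 0 < ‖tp (dif f q) (f q)‖ := norm_pos_iff.2 hne
  have h8 : (1 - ‖np (dif f q) (f q)‖) * (1 + ‖np (dif f q) (f q)‖ - 2 / κ) ≤ 0 :=
    mul_nonpos_of_nonneg_of_nonpos (by linarith) (by linarith)
  nlinarith [pow_pos h7 2]

end Pool.Agent.Helper40.BR
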