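import Pool.Agent.Helper40.BR.Num

/-!
# Local analysis of the distance to the tangent space
-/

open Filter Metric Module Set Function
open scoped Topology ContDiff RealInnerProductSpace

namespace Pool.Agent.Helper40.BR

variable {E : Type*} [NormedAddCommGroup E] [NormedSpace ℝ E] [FiniteDimensional ℝ E]
variable {W : Type*} [NormedAddCommGroup W] [InnerProductSpace ℝ W] [FiniteDimensional ℝ W]

lemma exists_tp (T : E →L[ℝ] W) (x : W) : ∃ w : E, T w = tp T x := by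
  have : tp T x ∈ LinearMap.range T.toLinearMap := Submodule.starProjection_apply_mem _ _
  obtain ⟨w, hw⟩ := this
  exact ⟨w, hw⟩

lemma norm_np_le (T : E →L[ℝ] W) (x : W) : ‖np T x‖ ≤ ‖x‖ :=
  Submodule.norm_starProjection_apply_le _ _

lemma norm_tp_le (T : E →L[ℝ] W) (x : W) : ‖tp T x‖ ≤ ‖x‖ :=
  Submodule.norm_starProjection_apply_le _ _

lemma norm_np_le_sub (T : E →L[ℝ] W) (x : W) (w : E) : ‖np T x‖ ≤ ‖x - T w‖ := by
  have : np T x = np T (x - T w) := by rw [map_sub, np_apply, sub_zero]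
  rw [this]
  exact norm_np_le _ _

lemma norm_sq_split (T : E →L[ℝ] W) (x : W) : ‖x‖ ^ 2 = ‖tp T x‖ ^ 2 + ‖np T x‖ ^ 2 :=
  Submodule.norm_sq_eq_add_norm_sq_starProjection x _

lemma tp_congr {T T' : E →L[ℝ] W} (h : LinearMap.range T.toLinearMap = LinearMap.range T'.toLinearMap)
    (x : W) : tp T x = tp T' x := by
  obtain ⟨w, hw⟩ := exists_tp T' x
  have h1 : tp T' x ∈ LinearMap.range T.toLinearMap := by
    rw [h, ← hw]
    exact ⟨w, rfl⟩
  apply Submodule.eq_starProjection_of_mem_of_inner_eq_zero h1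
  intro y hy
  rw [h] at hy
  obtain ⟨v, rfl⟩ := hy
  have h2 : (T'.toLinearMap v : W) = T' v := rfl
  rw [h2, inner_sub_left, tp_inner]
  ring

lemma np_congr {T T' : E →L[ℝ] W} (h : LinearMap.range T.toLinearMap = LinearMap.range T'.toLinearMap)
    (x : W) : np T x = np T' x := by
  rw [np_eq, np_eq, tp_congr h]

/-- lower semicontinuity of the distance to the tangent space. -/
lemma lsc_np {Y : Type*} {l : Filter Y} {T : Y → E →L[ℝ] W} {x : Y → W} {T₁ : E →L[ℝ] W} {x₁ : W}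
    (hT : Tendsto T l (𝓝 T₁)) (hx : Tendsto x l (𝓝 x₁)) (hinj : Injective T₁) {ε : ℝ} (hε : 0 < ε) :
    ∀ᶠ y in l, ‖np T₁ x₁‖ - ε < ‖np (T y) (x y)‖ := by
  obtain ⟨K₀, hK0, hK⟩ := (LinearMap.injective_iff_antilipschitz T₁.toLinearMap).1 hinj
  obtain ⟨K, hKK⟩ : ∃ K : ℝ, K = (K₀ : ℝ) := ⟨_, rfl⟩
  have hK' : ∀ w, ‖w‖ ≤ K * ‖T₁ w‖ := fun w => by
    have := hK.le_mul_dist w 0
    rw [hKK]
    simpa using this
  have hKr : (0:ℝ) < K := by rw [hKK]; exact hK0
  set R := ‖x₁‖ + 1 with hR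
  have hRpos : 0 < R := by positivity
  have e1 : ∀ᶠ y in l, ‖x y - x₁‖ < min 1 (ε / 2) := by
    have := (tendsto_iff_norm_sub_tendsto_zero.1 hx).eventually (gt_mem_nhds (show (0:ℝ) < min 1 (ε / 2) by positivity))
    exact this
  have e2 : ∀ᶠ y in l, ‖T y - T₁‖ < min (1 / (2 * K)) (ε / (4 * K * R)) := by
    have := (tendsto_iff_norm_sub_tendsto_zero.1 hT).eventually
      (gt_mem_nhds (show (0:ℝ) < min (1 / (2 * K)) (ε / (4 * K * R)) by positivity))
    exact this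
  filter_upwards [e1, e2] with y h1 h2
  have h1a : ‖x y - x₁‖ < 1 := lt_of_lt_of_le h1 (min_le_left _ _)
  have h1b : ‖x y - x₁‖ < ε / 2 := lt_of_lt_of_le h1 (min_le_right _ _)
  have h2a : ‖T y - T₁‖ < 1 / (2 * K) := lt_of_lt_of_le h2 (min_le_left _ _)
  have h2b : ‖T y - T₁‖ < ε / (4 * K * R) := lt_of_lt_of_le h2 (min_le_right _ _)
  obtain ⟨w, hw⟩ := exists_tp (T y) (x y)
  have hxy : ‖x y‖ ≤ R := by
    have : x y = (x y - x₁) + x₁ := by abel
    rw [this]
    have := norm_add_le (x y - x₁) x₁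
    linarith
  have hTw : ‖T y w‖ ≤ R := by rw [hw]; exact (norm_tp_le _ _).trans hxy
  have hd : ‖T₁ w - T y w‖ ≤ ‖T y - T₁‖ * ‖w‖ := by
    have e : T₁ w - T y w = -((T y - T₁) w) := by simp
    rw [e, norm_neg]
    exact (T y - T₁).le_opNorm w
  have hw1 : ‖w‖ ≤ 2 * K * R := by
    have a1 := hK' w
    have a2 : ‖T₁ w‖ ≤ ‖T y w‖ + ‖T y - T₁‖ * ‖w‖ := by
      have e : T₁ w = T y w + (T₁ w - T y w) := by abel
      rw [e]
      exact (norm_add_le _ _).trans (by linarith)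
    have a3 : ‖T y - T₁‖ * ‖w‖ ≤ 1 / (2 * K) * ‖w‖ := mul_le_mul_of_nonneg_right h2a.le (norm_nonneg _)
    have a4 : K * ‖T₁ w‖ ≤ K * (R + 1 / (2 * K) * ‖w‖) := by
      apply mul_le_mul_of_nonneg_left _ hKr.le
      linarith
    have a5 : K * (R + 1 / (2 * K) * ‖w‖) = K * R + ‖w‖ / 2 := by
      field_simp
    rw [a5] at a4
    linarith
  have hd2 : ‖T y - T₁‖ * ‖w‖ < ε / 2 + ε / 4 := by
    have b1 : ‖T y - T₁‖ * ‖w‖ ≤ ε / (4 * K * R) * (2 * K * R) :=
      mul_le_mul h2b.le hw1 (norm_nonneg _) (by positivity)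
    have b2 : ε / (4 * K * R) * (2 * K * R) = ε / 2 := by
      field_simp
      ring
    rw [b2] at b1
    linarith
  have h3 := norm_np_le_sub T₁ x₁ w
  have h4 : x₁ - T₁ w = (x₁ - x y) + (np (T y) (x y)) + (T y w - T₁ w) := by
    rw [np_eq, hw]
    abel
  have h5 : ‖x₁ - T₁ w‖ ≤ ‖x₁ - x y‖ + ‖np (T y) (x y)‖ + ‖T y w - T₁ w‖ := by
    rw [h4]
    exact (norm_add_le _ _).trans (by linarith [norm_add_le (x₁ - x y) (np (T y) (x y))])
  rw [norm_sub_rev x₁ (x y), norm_sub_rev (T y w)] at h5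
  have b1 : ‖T y - T₁‖ * ‖w‖ ≤ ε / (4 * K * R) * (2 * K * R) :=
    mul_le_mul h2b.le hw1 (norm_nonneg _) (by positivity)
  have b2 : ε / (4 * K * R) * (2 * K * R) = ε / 2 := by
    field_simp
    ring
  linarith

/-- Moving along the gradient of `|F|²` decreases `dist(F, range DF) - (κ/2)|F|²`. -/
lemma local_decrease {F : E → W} {z : E} (hF : ContDiffAt ℝ 3 F z) {c κ : ℝ} (hc : 0 ≤ c) (hκ : c < κ)
    (hA : ∀ v, ‖np (fderiv ℝ F z) (Sd F z v v)‖ ≤ c * ‖fderiv ℝ F z v‖ ^ 2)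
    (hne : tp (fderiv ℝ F z) (F z) ≠ 0) :
    ∃ᶠ y in 𝓝 z, ‖np (fderiv ℝ F y) (F y)‖ - (κ / 2) * ‖F y‖ ^ 2
      < ‖np (fderiv ℝ F z) (F z)‖ - (κ / 2) * ‖F z‖ ^ 2 ∧ ‖F z‖ ^ 2 ≤ ‖F y‖ ^ 2 := by
  set T := fderiv ℝ F z with hT
  set a := ‖tp T (F z)‖ with ha
  have ha0 : 0 < a := norm_pos_iff.2 hne
  obtain ⟨w, hw⟩ := exists_tp T (F z)
  set v := a⁻¹ • w with hv
  have hTv : T v = a⁻¹ • tp T (F z) := by rw [hv, map_smul, hw]
  have hTav : a • T v = tp T (F z) := by rw [hTv, smul_smul, mul_inv_cancel₀ ha0.ne', one_smul]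
  have hTv1 : ‖T v‖ = 1 := by
    rw [hTv, norm_smul, norm_inv, Real.norm_of_nonneg ha0.le, ← ha, inv_mul_cancel₀ ha0.ne']
  have hin : ⟪F z, T v⟫ = a := by
    rw [← tp_inner, ← hTav, real_inner_smul_left, real_inner_self_eq_norm_sq, hTv1]
    ring
  obtain ⟨ζ', hζ'⟩ := exists_tp T (Sd F z v v)
  -- the line
  have hline : HasDerivAt (fun s : ℝ => z + s • v) v 0 := by
    have := ((hasDerivAt_id (0:ℝ)).smul_const v).const_add z
    simpa using this
  have hz0 : z + (0:ℝ) • v = z := by simp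
  have hF1 : HasFDerivAt F T (z + (0:ℝ) • v) := by
    rw [hz0]; exact (hF.differentiableAt (by norm_num)).hasFDerivAt
  have hFd : HasDerivAt (fun s : ℝ => F (z + s • v)) (T v) 0 := hF1.comp_hasDerivAt 0 hline
  have hTd0 : HasFDerivAt (fderiv ℝ F) (Sd F z) (z + (0:ℝ) • v) := by
    rw [hz0]
    exact ((hF.fderiv_right (m := 2) (by norm_num)).differentiableAt (by norm_num)).hasFDerivAt
  have hTd : HasDerivAt (fun s : ℝ => fderiv ℝ F (z + s • v)) (Sd F z v) 0 :=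
    hTd0.comp_hasDerivAt 0 hline
  have hξ : HasDerivAt (fun s : ℝ => a • v + s • (v - a • ζ')) (v - a • ζ') 0 := by
    have := ((hasDerivAt_id (0:ℝ)).smul_const (v - a • ζ')).const_add (a • v)
    simpa using this
  have hζd := hTd.clm_apply hξ
  have hG : HasDerivAt (fun s : ℝ => F (z + s • v) - fderiv ℝ F (z + s • v) (a • v + s • (v - a • ζ')))
      (-(a • np T (Sd F z v v))) 0 := by
    refine (hFd.sub hζd).congr_deriv ?_
    simp only [zero_smul, add_zero, map_smul, map_sub, ← hT]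
    rw [hζ', np_eq]
    module
  set G : ℝ → W := fun s => F (z + s • v) - fderiv ℝ F (z + s • v) (a • v + s • (v - a • ζ')) with hGdef
  have hG0 : G 0 = np T (F z) := by
    simp only [hGdef, zero_smul, add_zero, map_smul, ← hT]
    rw [hTav, np_eq]
  set r : ℝ → ℝ := fun s => ‖F (z + s • v)‖ ^ 2 with hrdef
  have hr : HasDerivAt r (2 * a) 0 := by
    have := hFd.norm_sq
    refine this.congr_deriv ?_
    rw [hz0, hin]
  have hr0 : r 0 = ‖F z‖ ^ 2 := by simp [hrdef]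
  have hnG : ‖-(a • np T (Sd F z v v))‖ ≤ a * c := by
    rw [norm_neg, norm_smul, Real.norm_of_nonneg ha0.le]
    apply mul_le_mul_of_nonneg_left _ ha0.le
    have := hA v
    rw [hTv1] at this
    simpa using this
  have hκ0 : 0 < κ := lt_of_le_of_lt hc hκ
  set ε := a * (κ - c) / 4 with hε
  have hεpos : 0 < ε := by
    rw [hε]
    have : 0 < κ - c := by linarith
    positivity
  set δ := min a (a * (κ - c) / (2 * κ)) with hδ
  have hδpos : 0 < δ := by
    have : 0 < κ - c := by linarith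
    rw [hδ]
    positivity
  have ev1 : ∀ᶠ s in 𝓝 (0:ℝ), ‖G s - G 0 - (s - 0) • (-(a • np T (Sd F z v v)))‖ ≤ ε * ‖s - 0‖ :=
    (hasDerivAt_iff_isLittleO.1 hG).def hεpos
  have ev2 : ∀ᶠ s in 𝓝 (0:ℝ), ‖r s - r 0 - (s - 0) • (2 * a)‖ ≤ δ * ‖s - 0‖ :=
    (hasDerivAt_iff_isLittleO.1 hr).def hδpos
  have ev3 : ∀ᶠ s in 𝓝[>] (0:ℝ), ‖np (fderiv ℝ F (z + s • v)) (F (z + s • v))‖
      - (κ / 2) * ‖F (z + s • v)‖ ^ 2
      < ‖np T (F z)‖ - (κ / 2) * ‖F z‖ ^ 2 ∧ ‖F z‖ ^ 2 ≤ ‖F (z + s • v)‖ ^ 2 := by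
    filter_upwards [ev1.filter_mono nhdsWithin_le_nhds, ev2.filter_mono nhdsWithin_le_nhds,
      self_mem_nhdsWithin] with s h1 h2 h3
    have hs : 0 < s := h3
    rw [sub_zero, Real.norm_of_nonneg hs.le] at h1 h2
    have g1 : ‖G s‖ ≤ ‖np T (F z)‖ + s * (a * c) + ε * s := by
      have e : G s = (G s - G 0 - s • (-(a • np T (Sd F z v v)))) + (G 0
        + s • (-(a • np T (Sd F z v v)))) := by abel
      have e2 : ‖G 0 + s • (-(a • np T (Sd F z v v)))‖ ≤ ‖np T (F z)‖ + s * (a * c) := by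
        refine (norm_add_le _ _).trans ?_
        rw [hG0, norm_smul, Real.norm_of_nonneg hs.le]
        have := mul_le_mul_of_nonneg_left hnG hs.le
        linarith
      rw [e]
      refine (norm_add_le _ _).trans ?_
      linarith
    have g2 : ‖np (fderiv ℝ F (z + s • v)) (F (z + s • v))‖ ≤ ‖G s‖ := norm_np_le_sub _ _ _
    rw [Real.norm_eq_abs, abs_le, smul_eq_mul, hr0] at h2
    have g3 : ‖F z‖ ^ 2 + s * (2 * a) - δ * s ≤ ‖F (z + s • v)‖ ^ 2 := by
      have := h2.1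
      simp only [hrdef] at this
      linarith
    have g4 : δ ≤ a := min_le_left _ _
    have g5 : δ * κ ≤ a * (κ - c) / 2 := by
      have : δ ≤ a * (κ - c) / (2 * κ) := min_le_right _ _
      have h := mul_le_mul_of_nonneg_right this hκ0.le
      have e : a * (κ - c) / (2 * κ) * κ = a * (κ - c) / 2 := by field_simp
      linarith
    refine ⟨?_, ?_⟩
    · have h6 := mul_le_mul_of_nonneg_left g3 (show 0 ≤ κ / 2 by positivity)
      have h7 : s * (δ * κ) ≤ s * (a * (κ - c) / 2) := mul_le_mul_of_nonneg_left g5 hs.le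
      have h8 : 0 < s * (a * (κ - c)) := by
        have : 0 < κ - c := by linarith
        positivity
      have h9 : ε * s = s * (a * (κ - c)) / 4 := by rw [hε]; ring
      nlinarith
    · have : δ * s ≤ a * s := mul_le_mul_of_nonneg_right g4 hs.le
      nlinarith [mul_pos ha0 hs]
  have ht : Tendsto (fun s : ℝ => z + s • v) (𝓝[>] 0) (𝓝 z) := by
    have h := hline.continuousAt.tendsto
    simp only [hz0] at h
    exact h.mono_left nhdsWithin_le_nhds
  exact ht.frequently ev3.frequently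

lemma three_le : (3 : WithTop ℕ∞) ≤ ∞ := ENat.LEInfty.out

/-- Near a zero of an immersion the tangential part is not identically zero. -/
lemma frequently_tp_ne {F : E → W} {z : E} (hF : ContDiffAt ℝ 3 F z) (hFz : F z = 0) {v : E}
    (hv : fderiv ℝ F z v ≠ 0) : ∃ᶠ y in 𝓝 z, tp (fderiv ℝ F y) (F y) ≠ 0 := by
  set T := fderiv ℝ F z with hT
  have hTv : 0 < ‖T v‖ ^ 2 := by positivity
  have hline : HasDerivAt (fun s : ℝ => z + s • v) v 0 := by
    have := ((hasDerivAt_id (0:ℝ)).smul_const v).const_add z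
    simpa using this
  have hz0 : z + (0:ℝ) • v = z := by simp
  have hF1 : HasFDerivAt F T (z + (0:ℝ) • v) := by
    rw [hz0]; exact (hF.differentiableAt (by norm_num)).hasFDerivAt
  have hFd : HasDerivAt (fun s : ℝ => F (z + s • v)) (T v) 0 := hF1.comp_hasDerivAt 0 hline
  have hTd0 : HasFDerivAt (fderiv ℝ F) (Sd F z) (z + (0:ℝ) • v) := by
    rw [hz0]
    exact ((hF.fderiv_right (m := 2) (by norm_num)).differentiableAt (by norm_num)).hasFDerivAt
  have hTd : HasDerivAt (fun s : ℝ => fderiv ℝ F (z + s • v)) (Sd F z v) 0 :=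
    hTd0.comp_hasDerivAt 0 hline
  have hTdv : HasDerivAt (fun s : ℝ => fderiv ℝ F (z + s • v) v) (Sd F z v v) 0 := by
    have := hTd.clm_apply (hasDerivAt_const (0:ℝ) v)
    simpa using this
  have hg : HasDerivAt (fun s : ℝ => ⟪F (z + s • v), fderiv ℝ F (z + s • v) v⟫) (‖T v‖ ^ 2) 0 := by
    have := hFd.inner ℝ hTdv
    refine this.congr_deriv ?_
    rw [hz0, hFz, inner_zero_left, zero_add, ← hT, real_inner_self_eq_norm_sq]
  have hg0 : ⟪F (z + (0:ℝ) • v), fderiv ℝ F (z + (0:ℝ) • v) v⟫ = 0 := by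
    simp only [hz0, hFz, inner_zero_left]
  have ev1 : ∀ᶠ s in 𝓝[>] (0:ℝ), tp (fderiv ℝ F (z + s • v)) (F (z + s • v)) ≠ 0 := by
    have h1 := (hasDerivAt_iff_isLittleO.1 hg).def (show (0:ℝ) < ‖T v‖ ^ 2 / 2 by positivity)
    filter_upwards [h1.filter_mono nhdsWithin_le_nhds, self_mem_nhdsWithin] with s h2 h3
    have hs : 0 < s := h3
    rw [hg0, sub_zero, sub_zero, Real.norm_of_nonneg hs.le, Real.norm_eq_abs, abs_le,
      smul_eq_mul] at h2
    have h4 : 0 < ⟪F (z + s • v), fderiv ℝ F (z + s • v) v⟫ := by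
      nlinarith [h2.1, mul_pos hs hTv]
    intro h
    rw [← tp_inner, h, inner_zero_left] at h4
    exact lt_irrefl _ h4
  have ht : Tendsto (fun s : ℝ => z + s • v) (𝓝[>] 0) (𝓝 z) := by
    have h := hline.continuousAt.tendsto
    simp only [hz0] at h
    exact h.mono_left nhdsWithin_le_nhds
  exact ht.frequently ev1.frequently

end Pool.Agent.Helper40.BR
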