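import Pool.Agent.Helper40.BR.Num

/-!
# The Ricci tensor as a sum over an orthonormal basis
-/

open Filter Metric Module Set Function
open scoped Topology ContDiff RealInnerProductSpace

namespace Pool.Agent.Helper40.BR
open Pool.Agent.Helper20.PC

section
variable {F : Type*} [NormedAddCommGroup F] [NormedSpace ℝ F] [FiniteDimensional ℝ F]
variable {G : F → F →L[ℝ] F →L[ℝ] ℝ} {z : F}

omit [FiniteDimensional ℝ F] in
lemma dG_add2 (h : ContDiffAt ℝ 2 G z) (t u u' v : F) :
    dG G z t (u + u') v = dG G z t u v + dG G z t u' v := by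
  have e : (fun z' => G z' (u + u') v) = fun z' => G z' u v + G z' u' v := by
    ext z'; simp
  have h1 := (smooth2 h u v).differentiableAt (by norm_num)
  have h2 := (smooth2 h u' v).differentiableAt (by norm_num)
  rw [dG, e, fderiv_fun_add h1 h2]
  rfl

omit [FiniteDimensional ℝ F] in
lemma dG_smul2 (h : ContDiffAt ℝ 2 G z) (c : ℝ) (t u v : F) :
    dG G z t (c • u) v = c * dG G z t u v := by
  have e : (fun z' => G z' (c • u) v) = fun z' => c • G z' u v := by
    ext z'; simp
  have h1 := (smooth2 h u v).differentiableAt (by norm_num)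
  rw [dG, e, fderiv_fun_const_smul h1]
  rfl

omit [FiniteDimensional ℝ F] in
lemma dG_add3 (h : ContDiffAt ℝ 2 G z) (t u v v' : F) :
    dG G z t u (v + v') = dG G z t u v + dG G z t u v' := by
  have e : (fun z' => G z' u (v + v')) = fun z' => G z' u v + G z' u v' := by
    ext z'; simp
  have h1 := (smooth2 h u v).differentiableAt (by norm_num)
  have h2 := (smooth2 h u v').differentiableAt (by norm_num)
  rw [dG, e, fderiv_fun_add h1 h2]
  rfl

omit [FiniteDimensional ℝ F] in
lemma dG_smul3 (h : ContDiffAt ℝ 2 G z) (c : ℝ) (t u v : F) :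
    dG G z t u (c • v) = c * dG G z t u v := by
  have e : (fun z' => G z' u (c • v)) = fun z' => c • G z' u v := by
    ext z'; simp
  have h1 := (smooth2 h u v).differentiableAt (by norm_num)
  rw [dG, e, fderiv_fun_const_smul h1]
  rfl

lemma Gam_add (h : MetAt G z) (u u' v : F) : Gam G z (u + u') v = Gam G z u v + Gam G z u' v := by
  apply Gam_unique h
  intro w
  rw [map_add, _root_.add_apply, G_Gam h, G_Gam h, chr_apply h.smooth, chr_apply h.smooth,
    chr_apply h.smooth, dG_add, dG_add2 h.smooth, dG_add2 h.smooth]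
  ring

lemma Gam_smul (h : MetAt G z) (c : ℝ) (u v : F) : Gam G z (c • u) v = c • Gam G z u v := by
  apply Gam_unique h
  intro w
  have e : dG G z (c • u) v w = c * dG G z u v w := by simp [dG]
  rw [map_smul, _root_.smul_apply, G_Gam h, chr_apply h.smooth,
    chr_apply h.smooth, e, dG_smul2 h.smooth, dG_smul2 h.smooth, smul_eq_mul]
  ring

lemma Gam_add_right (h : MetAt G z) (u v v' : F) : Gam G z u (v + v') = Gam G z u v + Gam G z u v' := by
  rw [Gam_symm h, Gam_add h, Gam_symm h v, Gam_symm h v']

lemma Gam_smul_right (h : MetAt G z) (c : ℝ) (u v : F) : Gam G z u (c • v) = c • Gam G z u v := by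
  rw [Gam_symm h, Gam_smul h, Gam_symm h v]

lemma Riem_add (h : MetAt G z) (w w' u v : F) :
    Riem G z (w + w') u v = Riem G z w u v + Riem G z w' u v := by
  have e : (fun z' => Gam G z' (w + w') v) =ᶠ[𝓝 z] fun z' => Gam G z' w v + Gam G z' w' v := by
    filter_upwards [h.eventually] with z' hz'
    exact Gam_add hz' w w' v
  rw [Riem, Riem, Riem, e.fderiv_eq, fderiv_fun_add (differentiableAt_Gam h w v)
    (differentiableAt_Gam h w' v), Gam_add h, Gam_add h, Gam_add_right h, map_add,
    _root_.add_apply]
  abel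

lemma Riem_smul (h : MetAt G z) (c : ℝ) (w u v : F) :
    Riem G z (c • w) u v = c • Riem G z w u v := by
  have e : (fun z' => Gam G z' (c • w) v) =ᶠ[𝓝 z] fun z' => c • Gam G z' w v := by
    filter_upwards [h.eventually] with z' hz'
    exact Gam_smul hz' c w v
  rw [Riem, Riem, e.fderiv_eq, fderiv_fun_const_smul (differentiableAt_Gam h w v),
    Gam_smul h, Gam_smul h, Gam_smul_right h, map_smul, _root_.smul_apply]
  module

/-- the curvature as a linear map in the first variable. -/
noncomputable def RL (h : MetAt G z) (u v : F) : F →ₗ[ℝ] F where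
  toFun w := Riem G z w u v
  map_add' w w' := Riem_add h w w' u v
  map_smul' c w := Riem_smul h c w u v

end

section
variable {G : EE 4 → EE 4 →L[ℝ] EE 4 →L[ℝ] ℝ} {z : EE 4}

/-- The Ricci tensor is the trace of `w ↦ R(w,u)v`. -/
lemma ricci_eq_trace (h : MetAt G z) (u v : EE 4) : ricci G z u v = LinearMap.trace ℝ (EE 4) (RL h u v) := by
  rw [LinearMap.trace_eq_matrix_trace ℝ (finBasis ℝ (EE 4)), Matrix.trace, ricci]
  apply Finset.sum_congr rfl
  intro i _
  simp [LinearMap.toMatrix_apply, RL, Matrix.diag]

/-- The Ricci tensor through an orthonormal basis. -/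
lemma ricci_eq_sum (h : MetAt G z) (e : Fin 4 → EE 4) (he : ∀ i j, G z (e i) (e j) = if i = j then 1 else 0)
    (u : EE 4) : ricci G z u u = ∑ i, num G z (e i) u := by
  have hli : LinearIndependent ℝ e := by
    rw [linearIndependent_iff']
    intro s g hg i hi
    have h1 : G z (∑ j ∈ s, g j • e j) (e i) = g i := by
      rw [map_sum, _root_.sum_apply]
      simp only [map_smul, _root_.smul_apply, he, smul_eq_mul, mul_ite, mul_one, mul_zero]
      rw [Finset.sum_ite_eq' s i g, if_pos hi]
    rw [hg] at h1
    simpa using h1.symm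
  have hcard : Fintype.card (Fin 4) = finrank ℝ (EE 4) := by simp
  set b := basisOfLinearIndependentOfCardEqFinrank hli hcard with hb
  have hbe : ∀ i, b i = e i := fun i => by rw [hb]; simp
  have hrep : ∀ x i, b.repr x i = G z x (e i) := by
    intro x i
    have h1 : x = ∑ j, b.repr x j • b j := (b.sum_repr x).symm
    have h2 : G z x (e i) = G z (∑ j, b.repr x j • b j) (e i) := by rw [← h1]
    rw [h2, map_sum, _root_.sum_apply]
    simp only [map_smul, _root_.smul_apply, hbe, he, smul_eq_mul, mul_ite, mul_one, mul_zero]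
    rw [Finset.sum_ite_eq' Finset.univ i (fun j => b.repr x j), if_pos (Finset.mem_univ _)]
  rw [ricci_eq_trace h, LinearMap.trace_eq_matrix_trace ℝ b, Matrix.trace]
  apply Finset.sum_congr rfl
  intro i _
  rw [Matrix.diag, LinearMap.toMatrix_apply, hrep, hbe]
  exact G_Riem h (e i) u

end

end Pool.Agent.Helper40.BR
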