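import Pool.Agent.Helper40.BR.Alg
import Pool.Agent.Helper40.BR.Ric
import Pool.Agent.Helper40.BR.Frame

/-!
# Positivity of the bi-Ricci curvature at a point
-/

open Filter Metric Module Set Function
open scoped Topology ContDiff RealInnerProductSpace

namespace Pool.Agent.Helper40.BR
open Pool.Agent.Helper20.PC

variable {N : ℕ}

lemma num_self {G : EE 4 → EE 4 →L[ℝ] EE 4 →L[ℝ] ℝ} {z : EE 4} (h : MetAt G z) (u : EE 4) :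
    num G z u u = 0 := by
  rw [← G_Riem h]
  simp [Riem]

section
variable {F : EE 4 → EE N} {φ : EE 4 → ℝ} {z : EE 4}

/-- the scaled curvature formula. -/
lemma num_scaled (hF : ContDiffAt ℝ 3 F z) (hφ : ContDiffAt ℝ 2 φ z)
    (hinj : Injective (fderiv ℝ F z)) {k m : ℝ}
    (h1 : ∀ w, fderiv ℝ φ z w = -k * ⟪F z, fderiv ℝ F z w⟫)
    (h2 : ∀ s t, fderiv ℝ (fderiv ℝ φ) z s t = -k * (⟪fderiv ℝ F z s, fderiv ℝ F z t⟫
      + ⟪F z, Sd F z s t⟫) + m * ⟪F z, fderiv ℝ F z s⟫ * ⟪F z, fderiv ℝ F z t⟫)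
    (s : ℝ) {u v : EE 4} (hu : ⟪fderiv ℝ F z u, fderiv ℝ F z u⟫ = 1)
    (hv : ⟪fderiv ℝ F z v, fderiv ℝ F z v⟫ = 1) (huv : ⟪fderiv ℝ F z u, fderiv ℝ F z v⟫ = 0) :
    num (cm F φ) z (s • u) (s • v) = Real.exp (2 * φ z) * s ^ 4 *
      ((⟪np (fderiv ℝ F z) (Sd F z u u), np (fderiv ℝ F z) (Sd F z v v)⟫
        - ‖np (fderiv ℝ F z) (Sd F z u v)‖ ^ 2)
      + (k + k * ⟪np (fderiv ℝ F z) (Sd F z u u), np (fderiv ℝ F z) (F z)⟫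
          + (k ^ 2 - m) * ⟪F z, fderiv ℝ F z u⟫ ^ 2)
      + (k + k * ⟪np (fderiv ℝ F z) (Sd F z v v), np (fderiv ℝ F z) (F z)⟫
          + (k ^ 2 - m) * ⟪F z, fderiv ℝ F z v⟫ ^ 2)
      - k ^ 2 * ‖tp (fderiv ℝ F z) (F z)‖ ^ 2) := by
  rw [num_cm hF hφ hinj h1 h2 (s • u) (s • v) (by
    rw [map_smul, map_smul, real_inner_smul_left, real_inner_smul_right, huv]; ring)]
  simp only [map_smul, _root_.smul_apply, ← real_inner_self_eq_norm_sq, real_inner_smul_left,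
    real_inner_smul_right, hu, hv]
  ring

/-- Positivity of the bi-Ricci curvature at a point. -/
theorem biRic_pos (hF : ContDiffAt ℝ 3 F z) (hφ : ContDiffAt ℝ 2 φ z)
    (hinj : Injective (fderiv ℝ F z)) (hF0 : F z ≠ 0)
    (h1 : ∀ w, fderiv ℝ φ z w = -(5 / 2 / ‖F z‖ ^ 2) * ⟪F z, fderiv ℝ F z w⟫)
    (h2 : ∀ s t, fderiv ℝ (fderiv ℝ φ) z s t = -(5 / 2 / ‖F z‖ ^ 2) *
      (⟪fderiv ℝ F z s, fderiv ℝ F z t⟫ + ⟪F z, Sd F z s t⟫)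
      + (5 / ‖F z‖ ^ 4) * ⟪F z, fderiv ℝ F z s⟫ * ⟪F z, fderiv ℝ F z t⟫)
    {c : ℝ} (hc : 0 ≤ c)
    (hA : ∀ v, ‖np (fderiv ℝ F z) (Sd F z v v)‖ ≤ c * ‖fderiv ℝ F z v‖ ^ 2)
    (hnum : 0 < -(15 / 2) * c ^ 2 * (‖tp (fderiv ℝ F z) (F z)‖ ^ 2
        + ‖np (fderiv ℝ F z) (F z)‖ ^ 2) ^ 2
      + (25 / 2) * (‖tp (fderiv ℝ F z) (F z)‖ ^ 2 + ‖np (fderiv ℝ F z) (F z)‖ ^ 2)
      - (65 / 4) * ‖tp (fderiv ℝ F z) (F z)‖ ^ 2)
    (u v : EE 4) (hu : cm F φ z u u = 1) (hv : cm F φ z v v = 1) (huv : cm F φ z u v = 0) :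
    0 < biRic (cm F φ) z u v := by
  have hM := metAt_cm hF hφ hinj
  set T := fderiv ℝ F z with hT
  set lam := Real.exp (2 * φ z) with hlam
  have hlam0 : 0 < lam := Real.exp_pos _
  set μ := √lam with hμ
  have hμ0 : 0 < μ := Real.sqrt_pos.2 hlam0
  have hμ2 : μ ^ 2 = lam := Real.sq_sqrt hlam0.le
  set s := μ⁻¹ with hs
  have hs0 : 0 < s := inv_pos.2 hμ0
  have hsμ : s * μ = 1 := inv_mul_cancel₀ hμ0.ne'
  rw [cm_apply, ← hT, ← hlam] at hu hv huv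
  have hTu : ‖T (μ • u)‖ = 1 := by
    have h : ‖T (μ • u)‖ ^ 2 = 1 := by
      rw [← real_inner_self_eq_norm_sq, map_smul, real_inner_smul_left, real_inner_smul_right,
        ← mul_assoc, ← pow_two, hμ2, hu]
    exact (pow_eq_one_iff_of_nonneg (norm_nonneg _) (by norm_num)).1 h
  have hTv : ‖T (μ • v)‖ = 1 := by
    have h : ‖T (μ • v)‖ ^ 2 = 1 := by
      rw [← real_inner_self_eq_norm_sq, map_smul, real_inner_smul_left, real_inner_smul_right,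
        ← mul_assoc, ← pow_two, hμ2, hv]
    exact (pow_eq_one_iff_of_nonneg (norm_nonneg _) (by norm_num)).1 h
  have hTuv : ⟪T (μ • u), T (μ • v)⟫ = 0 := by
    rw [map_smul, map_smul, real_inner_smul_left, real_inner_smul_right,
        ← mul_assoc, ← pow_two, hμ2, huv]
  obtain ⟨e, he0, he1, hee, hpars⟩ := exists_frame T hinj (F z) hTu hTv hTuv
  have hsu : s • e 0 = u := by rw [he0, smul_smul, hsμ, one_smul]
  have hsv : s • e 1 = v := by rw [he1, smul_smul, hsμ, one_smul]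
  have hse : ∀ i j, cm F φ z (s • e i) (s • e j) = if i = j then 1 else 0 := by
    intro i j
    rw [cm_apply, ← hT, ← hlam, map_smul, map_smul, real_inner_smul_left, real_inner_smul_right,
      hee]
    have : lam * (s * (s * (if i = j then (1:ℝ) else 0))) = (s * μ) ^ 2 * (if i = j then 1 else 0) := by
      rw [mul_pow, hμ2]; ring
    rw [this, hsμ]
    ring
  set A : Fin 4 → Fin 4 → EE N := fun i j => np T (Sd F z (e i) (e j)) with hAdef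
  have hAsymm : ∀ i j, A i j = A j i := fun i j => by
    simp only [hAdef]; rw [Sd_symm hF]
  -- all signed sums
  have hsg : ∀ ε : Fin 4 → ℝ, (∀ i, ε i ^ 2 = 1) →
      ‖(A 0 0 + A 1 1 + A 2 2 + A 3 3) + (2:ℝ) • ((ε 0 * ε 1) • A 0 1 + (ε 0 * ε 2) • A 0 2
        + (ε 0 * ε 3) • A 0 3 + (ε 1 * ε 2) • A 1 2 + (ε 1 * ε 3) • A 1 3
        + (ε 2 * ε 3) • A 2 3)‖ ≤ 4 * c := by
    intro ε hε
    have h3 := hA (ε 0 • e 0 + ε 1 • e 1 + ε 2 • e 2 + ε 3 • e 3)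
    have h4 : ‖T (ε 0 • e 0 + ε 1 • e 1 + ε 2 • e 2 + ε 3 • e 3)‖ ^ 2 = 4 := by
      rw [← real_inner_self_eq_norm_sq]
      simp only [map_add, map_smul, inner_add_left, inner_add_right, real_inner_smul_left,
        real_inner_smul_right, hee]
      simp only [Fin.isValue, Fin.reduceEq, if_true, if_false]
      linear_combination hε 0 + hε 1 + hε 2 + hε 3
    have h5 : np T (Sd F z (ε 0 • e 0 + ε 1 • e 1 + ε 2 • e 2 + ε 3 • e 3)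
        (ε 0 • e 0 + ε 1 • e 1 + ε 2 • e 2 + ε 3 • e 3))
        = (ε 0 ^ 2 • A 0 0 + ε 1 ^ 2 • A 1 1 + ε 2 ^ 2 • A 2 2 + ε 3 ^ 2 • A 3 3)
        + (2:ℝ) • ((ε 0 * ε 1) • A 0 1 + (ε 0 * ε 2) • A 0 2
        + (ε 0 * ε 3) • A 0 3 + (ε 1 * ε 2) • A 1 2 + (ε 1 * ε 3) • A 1 3
        + (ε 2 * ε 3) • A 2 3) := by
      simp only [map_add, map_smul, _root_.add_apply, _root_.smul_apply]
      change _ = (ε 0 ^ 2 • A 0 0 + ε 1 ^ 2 • A 1 1 + ε 2 ^ 2 • A 2 2 + ε 3 ^ 2 • A 3 3)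
        + (2:ℝ) • ((ε 0 * ε 1) • A 0 1 + (ε 0 * ε 2) • A 0 2
        + (ε 0 * ε 3) • A 0 3 + (ε 1 * ε 2) • A 1 2 + (ε 1 * ε 3) • A 1 3
        + (ε 2 * ε 3) • A 2 3)
      have b10 : np T (Sd F z (e 1) (e 0)) = A 0 1 := hAsymm 1 0
      have b20 : np T (Sd F z (e 2) (e 0)) = A 0 2 := hAsymm 2 0
      have b30 : np T (Sd F z (e 3) (e 0)) = A 0 3 := hAsymm 3 0
      have b21 : np T (Sd F z (e 2) (e 1)) = A 1 2 := hAsymm 2 1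
      have b31 : np T (Sd F z (e 3) (e 1)) = A 1 3 := hAsymm 3 1
      have b32 : np T (Sd F z (e 3) (e 2)) = A 2 3 := hAsymm 3 2
      have c00 : np T (Sd F z (e 0) (e 0)) = A 0 0 := rfl
      have c11 : np T (Sd F z (e 1) (e 1)) = A 1 1 := rfl
      have c22 : np T (Sd F z (e 2) (e 2)) = A 2 2 := rfl
      have c33 : np T (Sd F z (e 3) (e 3)) = A 3 3 := rfl
      have c01 : np T (Sd F z (e 0) (e 1)) = A 0 1 := rfl
      have c02 : np T (Sd F z (e 0) (e 2)) = A 0 2 := rfl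
      have c03 : np T (Sd F z (e 0) (e 3)) = A 0 3 := rfl
      have c12 : np T (Sd F z (e 1) (e 2)) = A 1 2 := rfl
      have c13 : np T (Sd F z (e 1) (e 3)) = A 1 3 := rfl
      have c23 : np T (Sd F z (e 2) (e 3)) = A 2 3 := rfl
      rw [b10, b20, b30, b21, b31, b32, c00, c11, c22, c33, c01, c02, c03, c12, c13, c23]
      module
    rw [h4, h5, hε, hε, hε, hε, one_smul, one_smul, one_smul, one_smul] at h3
    linarith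
  have hdiag : ∀ i, ‖A i i‖ ≤ c := by
    intro i
    have h3 := hA (e i)
    have h4 : ‖T (e i)‖ ^ 2 = 1 := by
      rw [← real_inner_self_eq_norm_sq, hee, if_pos rfl]
    rw [h4, mul_one] at h3
    exact h3
  have hsg' : ∀ ε0 ε1 ε2 ε3 : ℝ, ε0 ^ 2 = 1 → ε1 ^ 2 = 1 → ε2 ^ 2 = 1 → ε3 ^ 2 = 1 →
      ∀ x : EE N, x = (A 0 0 + A 1 1 + A 2 2 + A 3 3) + (2:ℝ) • ((ε0 * ε1) • A 0 1
        + (ε0 * ε2) • A 0 2 + (ε0 * ε3) • A 0 3 + (ε1 * ε2) • A 1 2 + (ε1 * ε3) • A 1 3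
        + (ε2 * ε3) • A 2 3) → ‖x‖ ≤ 4 * c := by
    intro ε0 ε1 ε2 ε3 g0 g1 g2 g3 x hx
    rw [hx]
    exact hsg ![ε0, ε1, ε2, ε3] (by intro i; fin_cases i <;> assumption)
  have o1 : (1:ℝ) ^ 2 = 1 := by norm_num
  have o2 : (-1:ℝ) ^ 2 = 1 := by norm_num
  have hX := petrunin (a11 := A 0 0) (a22 := A 1 1) (a33 := A 2 2) (a44 := A 3 3)
    (a12 := A 0 1) (a13 := A 0 2) (a14 := A 0 3) (a23 := A 1 2) (a24 := A 1 3) (a34 := A 2 3) hc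
    (hdiag 0) (hdiag 1) (hdiag 2) (hdiag 3)
    (hsg' 1 1 1 1 o1 o1 o1 o1 _ (by module)) (hsg' 1 1 (-1) 1 o1 o1 o2 o1 _ (by module))
    (hsg' 1 (-1) 1 1 o1 o2 o1 o1 _ (by module)) (hsg' 1 (-1) (-1) 1 o1 o2 o2 o1 _ (by module))
    (hsg' (-1) 1 1 1 o2 o1 o1 o1 _ (by module)) (hsg' (-1) 1 (-1) 1 o2 o1 o2 o1 _ (by module))
    (hsg' (-1) (-1) 1 1 o2 o2 o1 o1 _ (by module)) (hsg' (-1) (-1) (-1) 1 o2 o2 o2 o1 _ (by module))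
  set p := np T (F z) with hp
  set k : ℝ := 5 / 2 / ‖F z‖ ^ 2 with hk
  set m : ℝ := 5 / ‖F z‖ ^ 4 with hm
  have hρ : 0 < ‖F z‖ := norm_pos_iff.2 hF0
  have hnij : ∀ i j, i ≠ j → num (cm F φ) z (s • e i) (s • e j) = lam * s ^ 4 *
      ((⟪A i i, A j j⟫ - ‖A i j‖ ^ 2)
      + (k + k * ⟪A i i, p⟫ + (k ^ 2 - m) * ⟪F z, T (e i)⟫ ^ 2)
      + (k + k * ⟪A j j, p⟫ + (k ^ 2 - m) * ⟪F z, T (e j)⟫ ^ 2)
      - k ^ 2 * ‖tp T (F z)‖ ^ 2) := by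
    intro i j hij
    have hi := hee i i
    have hj := hee j j
    have hij' := hee i j
    rw [if_pos rfl] at hi hj
    rw [if_neg hij] at hij'
    exact num_scaled hF hφ hinj h1 h2 s hi hj hij'
  have hG1 : cm F φ z u u = 1 := by rw [cm_apply, ← hT, ← hlam]; exact hu
  have hG2 : cm F φ z v v = 1 := by rw [cm_apply, ← hT, ← hlam]; exact hv
  have hG3 : cm F φ z u v = 0 := by rw [cm_apply, ← hT, ← hlam]; exact huv
  have hsec : secCurv (cm F φ) z u v = num (cm F φ) z u v := by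
    rw [secCurv, G_Riem hM, hG1, hG2, hG3]
    norm_num
  have hr1 := ricci_eq_sum hM (fun i => s • e i) hse u
  have hr2 := ricci_eq_sum hM (fun i => s • e i) hse v
  have hbr : biRic (cm F φ) z u v = lam * s ^ 4 * (
      ((⟪A 0 0, A 1 1⟫ - ‖A 0 1‖ ^ 2) + (⟪A 0 0, A 2 2⟫ - ‖A 0 2‖ ^ 2)
      + (⟪A 0 0, A 3 3⟫ - ‖A 0 3‖ ^ 2) + (⟪A 1 1, A 2 2⟫ - ‖A 1 2‖ ^ 2)
      + (⟪A 1 1, A 3 3⟫ - ‖A 1 3‖ ^ 2)
      + (3 * (⟪A 0 0, k • p⟫ + ⟪A 1 1, k • p⟫) + 2 * (⟪A 2 2, k • p⟫ + ⟪A 3 3, k • p⟫)))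
      + 10 * k + (k ^ 2 - m) * (3 * (⟪F z, T (e 0)⟫ ^ 2 + ⟪F z, T (e 1)⟫ ^ 2)
        + 2 * (⟪F z, T (e 2)⟫ ^ 2 + ⟪F z, T (e 3)⟫ ^ 2))
      - 5 * k ^ 2 * ‖tp T (F z)‖ ^ 2) := by
    rw [biRic, hsec, hr1, hr2, Fin.sum_univ_four, Fin.sum_univ_four]
    rw [← hsu, ← hsv, num_self hM, num_self hM, hnij 1 0 (by decide), hnij 2 0 (by decide),
      hnij 3 0 (by decide), hnij 0 1 (by decide), hnij 2 1 (by decide), hnij 3 1 (by decide)]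
    rw [real_inner_comm (A 0 0) (A 1 1), real_inner_comm (A 0 0) (A 2 2),
      real_inner_comm (A 0 0) (A 3 3), real_inner_comm (A 1 1) (A 2 2),
      real_inner_comm (A 1 1) (A 3 3), hAsymm 1 0, hAsymm 2 0, hAsymm 3 0, hAsymm 2 1, hAsymm 3 1]
    simp only [real_inner_smul_right]
    ring
  rw [hbr]
  have hpt := pointwise (a12 := A 0 1) (a13 := A 0 2) (a14 := A 0 3) (a23 := A 1 2)
    (a24 := A 1 3) (a34 := A 2 3) (q := k • p) (hdiag 0) (hdiag 1) hX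
  have hq : ‖k • p‖ ^ 2 = k ^ 2 * ‖p‖ ^ 2 := by
    rw [norm_smul, mul_pow, Real.norm_eq_abs, sq_abs]
  rw [hq] at hpt
  rw [Fin.sum_univ_four] at hpars
  have hkm : k ^ 2 - m = 5 / 4 / ‖F z‖ ^ 4 := by
    rw [hk, hm]
    field_simp
    ring
  have hkm0 : 0 ≤ k ^ 2 - m := by rw [hkm]; positivity
  have hsplit := norm_sq_split T (F z)
  rw [← hp] at hsplit
  set a := ‖tp T (F z)‖
  set b := ‖p‖
  set ρ := ‖F z‖ with hρdef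
  have hlow : 2 * (k ^ 2 - m) * a ^ 2 ≤ (k ^ 2 - m) * (3 * (⟪F z, T (e 0)⟫ ^ 2 + ⟪F z, T (e 1)⟫ ^ 2)
        + 2 * (⟪F z, T (e 2)⟫ ^ 2 + ⟪F z, T (e 3)⟫ ^ 2)) := by
    rw [← hpars]
    have : 2 * (⟪F z, T (e 0)⟫ ^ 2 + ⟪F z, T (e 1)⟫ ^ 2 + ⟪F z, T (e 2)⟫ ^ 2 + ⟪F z, T (e 3)⟫ ^ 2)
        ≤ 3 * (⟪F z, T (e 0)⟫ ^ 2 + ⟪F z, T (e 1)⟫ ^ 2)
        + 2 * (⟪F z, T (e 2)⟫ ^ 2 + ⟪F z, T (e 3)⟫ ^ 2) := by
      have g0 := sq_nonneg ⟪F z, T (e 0)⟫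
      have g1 := sq_nonneg ⟪F z, T (e 1)⟫
      linarith
    have h3 := mul_le_mul_of_nonneg_left this hkm0
    refine le_trans (le_of_eq ?_) h3
    ring
  have hfin : 0 < -(15 / 2) * c ^ 2 - 2 * (k ^ 2 * b ^ 2) + 10 * k + 2 * (k ^ 2 - m) * a ^ 2
      - 5 * k ^ 2 * a ^ 2 := by
    have hρ4 : 0 < ρ ^ 4 := by positivity
    have e1 : ρ ^ 4 * (-(15 / 2) * c ^ 2 - 2 * (k ^ 2 * b ^ 2) + 10 * k + 2 * (k ^ 2 - m) * a ^ 2
      - 5 * k ^ 2 * a ^ 2) = -(15 / 2) * c ^ 2 * ρ ^ 4 - (25 / 2) * b ^ 2 + 25 * ρ ^ 2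
        - (115 / 4) * a ^ 2 := by
      rw [hkm, hk]
      field_simp
      ring
    have e2 : 0 < ρ ^ 4 * (-(15 / 2) * c ^ 2 - 2 * (k ^ 2 * b ^ 2) + 10 * k + 2 * (k ^ 2 - m) * a ^ 2
      - 5 * k ^ 2 * a ^ 2) := by
      rw [e1]
      have e3 : ρ ^ 4 = (a ^ 2 + b ^ 2) ^ 2 := by rw [← hsplit]; ring
      rw [e3, hsplit]
      linarith
    exact (mul_pos_iff_of_pos_left hρ4).1 e2
  have hpos : 0 < lam * s ^ 4 := by positivity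
  apply mul_pos hpos
  linarith

end

end Pool.Agent.Helper40.BR
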