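import Pool.Agent.Helper40.BR.Loc

/-!
# Immersions of compact manifolds in the ball
-/

open Filter Metric Module Set Function
open scoped Topology ContDiff RealInnerProductSpace Manifold ENNReal

namespace Pool.Agent.Helper40.BR

variable {N : ℕ} {X : Type*} [TopologicalSpace X] [ChartedSpace (EE 4) X]
  [IsManifold (𝓡 4) ∞ X] {f : X → EE N}

lemma contDiffAt_loc (hf : ContMDiff (𝓡 4) 𝓘(ℝ, EE N) ∞ f) (p : X) {y : EE 4}
    (hy : y ∈ (extChartAt (𝓡 4) p).target) : ContDiffAt ℝ ∞ (loc f p) y := by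
  have h1 : ContMDiffOn 𝓘(ℝ, EE 4) (𝓡 4) ∞ (extChartAt (𝓡 4) p).symm (extChartAt (𝓡 4) p).target :=
    contMDiffOn_extChartAt_symm p
  have h2 : ContMDiffOn 𝓘(ℝ, EE 4) 𝓘(ℝ, EE N) ∞ (loc f p) (extChartAt (𝓡 4) p).target :=
    hf.comp_contMDiffOn h1
  have h3 : ContDiffOn ℝ ∞ (loc f p) (extChartAt (𝓡 4) p).target := contMDiffOn_iff_contDiffOn.1 h2
  exact h3.contDiffAt ((isOpen_extChartAt_target p).mem_nhds hy)

lemma range_dif (hf : ContMDiff (𝓡 4) 𝓘(ℝ, EE N) ∞ f) (p : X) {q : X}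
    (hq : q ∈ (extChartAt (𝓡 4) p).source) :
    ∃ e : EE 4 →L[ℝ] EE 4, Bijective e ∧ dif f q = (fderiv ℝ (loc f p) (extChartAt (𝓡 4) p q)).comp e
      := by
  have hy : extChartAt (𝓡 4) p q ∈ (extChartAt (𝓡 4) p).target := (extChartAt (𝓡 4) p).map_source hq
  have h1 : HasMFDerivAt 𝓘(ℝ, EE 4) 𝓘(ℝ, EE N) (loc f p) (extChartAt (𝓡 4) p q)
      (fderiv ℝ (loc f p) (extChartAt (𝓡 4) p q)) :=
    (((contDiffAt_loc hf p hy).differentiableAt (by simp)).hasFDerivAt).hasMFDerivAt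
  haveI : IsManifold (𝓡 4) 1 X := IsManifold.of_le (n := ∞) (by simp)
  have h2 : HasMFDerivAt (𝓡 4) 𝓘(ℝ, EE 4) (extChartAt (𝓡 4) p) q
      (mfderiv (𝓡 4) 𝓘(ℝ, EE 4) (extChartAt (𝓡 4) p) q) :=
    (mdifferentiableAt_extChartAt (by simpa using hq)).hasMFDerivAt
  have h3 := h1.comp q h2
  have h4 : f =ᶠ[𝓝 q] (loc f p) ∘ (extChartAt (𝓡 4) p) := by
    filter_upwards [(isOpen_extChartAt_source p).mem_nhds hq] with x hx
    simp only [loc, Function.comp_apply]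
    rw [(extChartAt (𝓡 4) p).left_inv hx]
  have h5 := h3.congr_of_eventuallyEq h4
  have h6 := isInvertible_mfderiv_extChartAt hq
  refine ⟨mfderiv (𝓡 4) 𝓘(ℝ, EE 4) (extChartAt (𝓡 4) p) q, h6.bijective, ?_⟩
  exact h5.mfderiv

lemma dif_self (hf : ContMDiff (𝓡 4) 𝓘(ℝ, EE N) ∞ f) (p : X) :
    dif f p = fderiv ℝ (loc f p) (extChartAt (𝓡 4) p p) := by
  have h1 : MDifferentiableAt (𝓡 4) 𝓘(ℝ, EE N) f p := hf.mdifferentiableAt (by simp)
  have h2 := h1.mfderiv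
  rw [dif, h2]
  simp only [writtenInExtChartAt, extChartAt_model_space_eq_id, PartialEquiv.refl_coe,
    ModelWithCorners.range_eq_univ, fderivWithin_univ]
  rfl

lemma loc_apply (p : X) {q : X} (hq : q ∈ (extChartAt (𝓡 4) p).source) :
    loc f p (extChartAt (𝓡 4) p q) = f q := by
  simp only [loc, Function.comp_apply]
  rw [(extChartAt (𝓡 4) p).left_inv hq]

lemma np_dif (hf : ContMDiff (𝓡 4) 𝓘(ℝ, EE N) ∞ f) (p : X) {q : X}
    (hq : q ∈ (extChartAt (𝓡 4) p).source) (x : EE N) :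
    np (dif f q) x = np (fderiv ℝ (loc f p) (extChartAt (𝓡 4) p q)) x := by
  obtain ⟨e, he, h⟩ := range_dif hf p hq
  apply np_congr
  rw [h]
  ext w
  constructor
  · rintro ⟨v, rfl⟩
    exact ⟨e v, rfl⟩
  · rintro ⟨v, rfl⟩
    obtain ⟨v', rfl⟩ := he.2 v
    exact ⟨v', rfl⟩

lemma injective_fderiv (hf : ContMDiff (𝓡 4) 𝓘(ℝ, EE N) ∞ f) (himm : ∀ p, Injective (dif f p)) (p : X)
    {q : X} (hq : q ∈ (extChartAt (𝓡 4) p).source) :
    Injective (fderiv ℝ (loc f p) (extChartAt (𝓡 4) p q)) := by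
  obtain ⟨e, he, h⟩ := range_dif hf p hq
  intro a b hab
  obtain ⟨a, rfl⟩ := he.2 a
  obtain ⟨b, rfl⟩ := he.2 b
  have : dif f q a = dif f q b := by
    rw [h]
    exact hab
  rw [himm q this]

end Pool.Agent.Helper40.BR
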