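import Pool.Agent.Helper40.BR.Curv

/-!
# Curvature of a conformally changed induced metric: the formula
-/

open Filter Metric Module Set Function
open scoped Topology ContDiff RealInnerProductSpace

namespace Pool.Agent.Helper40.BR
open Pool.Agent.Helper20.PC

variable {E : Type*} [NormedAddCommGroup E] [NormedSpace ℝ E] [FiniteDimensional ℝ E]
variable {W : Type*} [NormedAddCommGroup W] [InnerProductSpace ℝ W] [FiniteDimensional ℝ W]

/-- the tangential projection. -/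
noncomputable def tp (T : E →L[ℝ] W) : W →L[ℝ] W := (LinearMap.range T.toLinearMap).starProjection

section
variable (T : E →L[ℝ] W)

lemma np_eq (x : W) : np T x = x - tp T x := by
  rw [np, tp, Submodule.starProjection_orthogonal_val]

lemma tp_inner (x : W) (v : E) : ⟪tp T x, T v⟫ = ⟪x, T v⟫ := by
  have : ⟪x - tp T x, T v⟫ = 0 :=
    Submodule.starProjection_inner_eq_zero x (T v) ⟨v, rfl⟩
  rw [inner_sub_left] at this
  linarith

lemma tp_apply (v : E) : tp T (T v) = T v :=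
  Submodule.starProjection_eq_self_iff.2 ⟨v, rfl⟩

lemma np_apply (v : E) : np T (T v) = 0 := by
  rw [np_eq, tp_apply, sub_self]

lemma tp_symm (x y : W) : ⟪tp T x, y⟫ = ⟪x, tp T y⟫ :=
  Submodule.inner_starProjection_left_eq_right _ x y

lemma tp_tp (x : W) : tp T (tp T x) = tp T x :=
  Submodule.starProjection_eq_self_iff.2 (Submodule.starProjection_apply_mem _ _)

lemma np_inner (x y : W) : ⟪np T x, np T y⟫ = ⟪x, y⟫ - ⟪x, tp T y⟫ := by
  rw [np_eq, np_eq, inner_sub_left, inner_sub_right, inner_sub_right, tp_symm, tp_symm, tp_tp]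
  ring

lemma inner_tp (x : W) (v : E) : ⟪T v, tp T x⟫ = ⟪T v, x⟫ := by
  rw [← tp_symm, tp_apply]

lemma tp_unique {x : W} {v : E} (h : ∀ w, ⟪T v, T w⟫ = ⟪x, T w⟫) : tp T x = T v := by
  have hv : T v ∈ LinearMap.range T.toLinearMap := ⟨v, rfl⟩
  apply Submodule.eq_starProjection_of_mem_of_inner_eq_zero hv
  rintro _ ⟨w, rfl⟩
  have := h w
  rw [inner_sub_left]
  have h2 : (T.toLinearMap w : W) = T w := rfl
  rw [h2, this]
  ring

end

section
variable {F : E → W} {φ : E → ℝ} {z : E}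

/-- the connection of the conformally changed metric. -/
lemma T_Gam (hF : ContDiffAt ℝ 3 F z) (hφ : ContDiffAt ℝ 2 φ z)
    (hinj : Injective (fderiv ℝ F z)) {k : ℝ}
    (h1 : ∀ w, fderiv ℝ φ z w = -k * ⟪F z, fderiv ℝ F z w⟫) (u v : E) :
    fderiv ℝ F z (Gam (cm F φ) z u v) = tp (fderiv ℝ F z) (Sd F z u v
      + (fderiv ℝ φ z u) • fderiv ℝ F z v + (fderiv ℝ φ z v) • fderiv ℝ F z u
      + (k * ⟪fderiv ℝ F z u, fderiv ℝ F z v⟫) • F z) := by
  have hM := metAt_cm hF hφ hinj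
  symm
  apply tp_unique
  intro w
  have h2 := G_Gam hM u v w
  rw [cm_apply, chr_apply hM.smooth, dG_cm hF hφ, dG_cm hF hφ, dG_cm hF hφ, h1 w] at h2
  have he : Real.exp (2 * φ z) ≠ 0 := (Real.exp_pos _).ne'
  have h3 : ⟪fderiv ℝ F z (Gam (cm F φ) z u v), fderiv ℝ F z w⟫
      = (1 / 2) * ((2 * fderiv ℝ φ z u * ⟪fderiv ℝ F z v, fderiv ℝ F z w⟫
        + ⟪Sd F z u v, fderiv ℝ F z w⟫ + ⟪fderiv ℝ F z v, Sd F z u w⟫)
        + (2 * fderiv ℝ φ z v * ⟪fderiv ℝ F z u, fderiv ℝ F z w⟫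
        + ⟪Sd F z v u, fderiv ℝ F z w⟫ + ⟪fderiv ℝ F z u, Sd F z v w⟫)
        - (2 * (-k * ⟪F z, fderiv ℝ F z w⟫) * ⟪fderiv ℝ F z u, fderiv ℝ F z v⟫
        + ⟪Sd F z w u, fderiv ℝ F z v⟫ + ⟪fderiv ℝ F z u, Sd F z w v⟫)) := by
    apply mul_left_cancel₀ he
    rw [h2]
    ring
  rw [h3, Sd_symm hF v u, Sd_symm hF w u, Sd_symm hF w v, real_inner_comm (Sd F z u w)]
  simp only [inner_add_left, real_inner_smul_left]
  ring

/-- **Curvature of `e^{2φ} F^* g`** when `φ` is a function of `|F|²`. -/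
theorem num_cm (hF : ContDiffAt ℝ 3 F z) (hφ : ContDiffAt ℝ 2 φ z)
    (hinj : Injective (fderiv ℝ F z)) {k m : ℝ}
    (h1 : ∀ w, fderiv ℝ φ z w = -k * ⟪F z, fderiv ℝ F z w⟫)
    (h2 : ∀ s t, fderiv ℝ (fderiv ℝ φ) z s t = -k * (⟪fderiv ℝ F z s, fderiv ℝ F z t⟫
      + ⟪F z, Sd F z s t⟫) + m * ⟪F z, fderiv ℝ F z s⟫ * ⟪F z, fderiv ℝ F z t⟫)
    (u v : E) (huv : ⟪fderiv ℝ F z u, fderiv ℝ F z v⟫ = 0) :
    num (cm F φ) z u v = Real.exp (2 * φ z) *
      (⟪np (fderiv ℝ F z) (Sd F z u u), np (fderiv ℝ F z) (Sd F z v v)⟫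
        - ‖np (fderiv ℝ F z) (Sd F z u v)‖ ^ 2
      + ‖fderiv ℝ F z v‖ ^ 2 * (k * ‖fderiv ℝ F z u‖ ^ 2
          + k * ⟪np (fderiv ℝ F z) (Sd F z u u), np (fderiv ℝ F z) (F z)⟫
          + (k ^ 2 - m) * ⟪F z, fderiv ℝ F z u⟫ ^ 2)
      + ‖fderiv ℝ F z u‖ ^ 2 * (k * ‖fderiv ℝ F z v‖ ^ 2
          + k * ⟪np (fderiv ℝ F z) (Sd F z v v), np (fderiv ℝ F z) (F z)⟫
          + (k ^ 2 - m) * ⟪F z, fderiv ℝ F z v⟫ ^ 2)
      - k ^ 2 * ‖fderiv ℝ F z u‖ ^ 2 * ‖fderiv ℝ F z v‖ ^ 2 * ‖tp (fderiv ℝ F z) (F z)‖ ^ 2) := by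
  have hM := metAt_cm hF hφ hinj
  set T := fderiv ℝ F z with hT
  have hvu : ⟪T v, T u⟫ = 0 := by rw [real_inner_comm]; exact huv
  -- the two terms with the connection
  have g1 : chr (cm F φ) z u u (Gam (cm F φ) z v v) = Real.exp (2 * φ z) *
      ⟪T (Gam (cm F φ) z u u), T (Gam (cm F φ) z v v)⟫ := by
    rw [← G_Gam hM, cm_apply]
  have g2 : chr (cm F φ) z u v (Gam (cm F φ) z u v) = Real.exp (2 * φ z) *
      ⟪T (Gam (cm F φ) z u v), T (Gam (cm F φ) z u v)⟫ := by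
    rw [← G_Gam hM, cm_apply]
  have t1 := T_Gam hF hφ hinj h1 u u
  have t2 := T_Gam hF hφ hinj h1 v v
  have t3 := T_Gam hF hφ hinj h1 u v
  rw [← hT] at t1 t2 t3
  have d1 := Td_symm hF u v u
  have d2 := Td_swap hF u v v
  have d3 := Td_symm hF v u v
  rw [num, ddG_cm hF hφ, ddG_cm hF hφ, ddG_cm hF hφ, g1, g2, t1, t2, t3]
  rw [← hT, huv, Sd_symm hF v u, d1, d2, d3]
  simp only [map_add, map_smul, tp_apply, h1, h2, ← hT]
  simp only [inner_add_left, inner_add_right, real_inner_smul_left, real_inner_smul_right,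
    huv, hvu, ← real_inner_self_eq_norm_sq, np_inner, tp_symm, tp_tp, tp_apply]
  have c1 := real_inner_comm (T v) (Sd F z u v)
  have c2 := real_inner_comm (T v) (Sd F z u u)
  have c3 := real_inner_comm (T u) (Sd F z v v)
  have c4 := real_inner_comm (T u) (Sd F z u v)
  have c5 := real_inner_comm (T u) (F z)
  have c6 := real_inner_comm (T v) (F z)
  have c7 : ⟪F z, Sd F z u u⟫ = ⟪Sd F z u u, F z⟫ := real_inner_comm _ _
  have c8 : ⟪F z, Sd F z v v⟫ = ⟪Sd F z v v, F z⟫ := real_inner_comm _ _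
  have c9 : ⟪F z, tp T (Sd F z v v)⟫ = ⟪Sd F z v v, tp T (F z)⟫ := by
    rw [← tp_symm, real_inner_comm]
  have c10 : ⟪F z, tp T (Sd F z u u)⟫ = ⟪Sd F z u u, tp T (F z)⟫ := by
    rw [← tp_symm, real_inner_comm]
  have c11 : ⟪Sd F z v v, Sd F z u u⟫ = ⟪Sd F z u u, Sd F z v v⟫ := real_inner_comm _ _
  have c12 := real_inner_comm (T u) (Td F z v v u)
  have c13 := real_inner_comm (T v) (Td F z u u v)
  simp only [inner_tp, c1, c2, c3, c4, c5, c6, c7, c8, c9, c10, c12, c13]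
  ring
end

end Pool.Agent.Helper40.BR
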