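import Pool.Agent.Helper40.BR.Curv

/-!
# The conformal factor
-/

open Filter Metric Module Set Function
open scoped Topology ContDiff RealInnerProductSpace

namespace Pool.Agent.Helper40.BR

variable {E : Type*} [NormedAddCommGroup E] [NormedSpace ℝ E]
variable {W : Type*} [NormedAddCommGroup W] [InnerProductSpace ℝ W]
variable {F : E → W} {z : E}

/-- the logarithm of the conformal factor. -/
noncomputable def psi (F : E → W) (y : E) : ℝ := -(5 / 2) * Real.log ‖F y‖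

lemma psi_eq (F : E → W) : psi F = fun y => -(5 / 4) * Real.log (‖F y‖ ^ 2) := by
  ext y
  rw [psi, Real.log_pow]
  push_cast
  ring

lemma contDiffAt_psi {n : WithTop ℕ∞} (hF : ContDiffAt ℝ n F z) (h0 : F z ≠ 0) : ContDiffAt ℝ n (psi F) z := by
  rw [psi_eq]
  exact contDiffAt_const.mul ((hF.norm_sq ℝ).log (by positivity))

lemma fderiv_psi (hF : DifferentiableAt ℝ F z) (h0 : F z ≠ 0) (w : E) :
    fderiv ℝ (psi F) z w = -(5 / 2 / ‖F z‖ ^ 2) * ⟪F z, fderiv ℝ F z w⟫ := by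
  rw [psi_eq]
  have h1 := hF.hasFDerivAt.norm_sq
  have h2 := (h1.log (by positivity)).const_mul (-(5 / 4 : ℝ))
  have h3 : HasFDerivAt (fun y => -(5 / 4) * Real.log (‖F y‖ ^ 2)) _ z := h2
  rw [h3.fderiv]
  have : ‖F z‖ ≠ 0 := norm_ne_zero_iff.2 h0
  simp
  field_simp
  ring

lemma fderiv2_psi (hF : ContDiffAt ℝ 3 F z) (h0 : F z ≠ 0) (s t : E) :
    fderiv ℝ (fderiv ℝ (psi F)) z s t = -(5 / 2 / ‖F z‖ ^ 2) *
      (⟪fderiv ℝ F z s, fderiv ℝ F z t⟫ + ⟪F z, Sd F z s t⟫)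
      + (5 / ‖F z‖ ^ 4) * ⟪F z, fderiv ℝ F z s⟫ * ⟪F z, fderiv ℝ F z t⟫ := by
  have hρ : ‖F z‖ ≠ 0 := norm_ne_zero_iff.2 h0
  have hψ : ContDiffAt ℝ 3 (psi F) z := contDiffAt_psi hF h0
  have hd : DifferentiableAt ℝ (fderiv ℝ (psi F)) z :=
    (hψ.fderiv_right (m := 2) (by norm_num)).differentiableAt (by norm_num)
  have e1 : fderiv ℝ (fderiv ℝ (psi F)) z s t = fderiv ℝ (fun y => fderiv ℝ (psi F) y t) z s := by
    have := (hd.hasFDerivAt.clm_apply (hasFDerivAt_const t z)).fderiv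
    rw [this]
    simp
  have e2 : (fun y => fderiv ℝ (psi F) y t) =ᶠ[𝓝 z]
      fun y => (-(5 / 2) * (‖F y‖ ^ 2)⁻¹) * ⟪F y, fderiv ℝ F y t⟫ := by
    filter_upwards [hF.eventually (by norm_num), hF.continuousAt.eventually_ne h0] with y h1 h2
    rw [fderiv_psi (h1.differentiableAt (by norm_num)) h2]
    ring
  have hFd : HasFDerivAt F (fderiv ℝ F z) z := (hF.differentiableAt (by norm_num)).hasFDerivAt
  have h1 := hFd.norm_sq
  have h2 := ((hasDerivAt_inv (show ‖F z‖ ^ 2 ≠ 0 by positivity)).comp_hasFDerivAt z h1).const_mul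
    (-(5 / 2 : ℝ))
  have h3 := h2.mul (hFd.inner ℝ (hasFDerivAt_fderiv hF t))
  have h4 : HasFDerivAt (fun y => (-(5 / 2) * (‖F y‖ ^ 2)⁻¹) * ⟪F y, fderiv ℝ F y t⟫) _ z := h3
  rw [e1, e2.fderiv_eq, h4.fderiv]
  simp only [Function.comp_apply, _root_.smul_apply, _root_.add_apply, fderivInnerCLM_apply,
    ContinuousLinearMap.comp_apply, ContinuousLinearMap.prod_apply, ContinuousLinearMap.flip_apply,
    smul_eq_mul, innerSL_apply_apply, real_inner_comm (fderiv ℝ F z t), nsmul_eq_mul]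
  field_simp
  ring

end Pool.Agent.Helper40.BR
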